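import Pool.Agent.Helper45M.DB.Tower
set_option autoImplicit false

/-!
# Towers of flat models with inseparable transition maps: the main theorems
-/

open MvPolynomial WittVector Pool.Agent.Y129.TA Pool.Agent.Y129.TB Pool.Agent.R388.TP

set_option linter.unusedSectionVars false

namespace Pool.Agent.Helper45M.DB

variable {p : ℕ} [hp : Fact p.Prime] {C F K E : Type} [Field C] [Field F] [CharP F p] [Field K]
  [Field E] [Algebra K C] [Algebra E F] {σ ι : Type} [Fintype σ] [Fintype ι]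

/-- The zeros of a polynomial over `E` with coefficients close to those of `f` are zeros of `f` up to
the same error. -/
theorem near_coeff [IsAlgClosed F] (T : Tilting p C F) {ρ : ℝ} (hpρ : T.absK p ≤ ρ) (hρ1 : ρ < 1)
    (f : MvPolynomial σ (OK T.toTiltPair K)) (f' : MvPolynomial σ E)
    (hf : ∀ α, T.absK (algebraMap K C (MvPolynomial.coeff α f : OK T.toTiltPair K) -
      T.sharp (algebraMap E F (MvPolynomial.coeff α f'))) ≤ ρ) (t : σ → F)
    (ht : ∀ i, T.absF (t i) ≤ 1) (h0 : aeval t f' = 0) :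
    T.absK (aeval (fun i => T.sharp (t i)) f) ≤ ρ := by
  classical
  have hpp : 0 < T.absK p := T.absK.pos T.p_ne
  have hρ0 : 0 ≤ ρ := hpp.le.trans hpρ
  let S : Finset (σ →₀ ℕ) := f.support ∪ f'.support
  have hle : ∀ α, T.absF (algebraMap E F (MvPolynomial.coeff α f')) ≤ 1 := by
    intro α
    rw [← T.abs_sharp]
    have h1 : T.sharp (algebraMap E F (MvPolynomial.coeff α f')) =
        algebraMap K C (MvPolynomial.coeff α f : OK T.toTiltPair K) +
        -(algebraMap K C (MvPolynomial.coeff α f : OK T.toTiltPair K) -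
          T.sharp (algebraMap E F (MvPolynomial.coeff α f'))) := by ring
    rw [h1]
    refine (T.ultraK _ _).trans (max_le (MvPolynomial.coeff α f).2 ?_)
    rw [AbsoluteValue.map_neg]
    exact (hf α).trans hρ1.le
  let a : (σ →₀ ℕ) → F := fun α => algebraMap E F (MvPolynomial.coeff α f') * ∏ i, t i ^ α i
  have ha : ∀ α ∈ S, T.absF (a α) ≤ 1 := by
    intro α _
    change T.absF (_ * _) ≤ 1
    rw [map_mul, map_prod]
    refine mul_le_one₀ (hle α) (Finset.prod_nonneg fun i _ => T.absF.nonneg _)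
      (Finset.prod_le_one (fun i _ => T.absF.nonneg _) fun i _ => ?_)
    rw [map_pow]
    exact pow_le_one₀ (T.absF.nonneg _) (ht i)
  have hsum : ∑ α ∈ S, a α = 0 := by
    rw [← h0, aeval_def, eval₂_eq']
    refine (Finset.sum_subset Finset.subset_union_right fun α _ hα => ?_).symm
    change algebraMap E F (MvPolynomial.coeff α f') * _ = 0
    rw [notMem_support_iff.1 hα, map_zero, zero_mul]
  have h1 := sharp_sum_near T S a ha
  rw [hsum, T.toTiltPair.sharp_zero, sub_zero] at h1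
  have h2 : aeval (fun i => T.sharp (t i)) f =
      ∑ α ∈ S, (algebraMap K C (MvPolynomial.coeff α f : OK T.toTiltPair K) -
        T.sharp (algebraMap E F (MvPolynomial.coeff α f'))) * ∏ i, T.sharp (t i) ^ α i +
      ∑ α ∈ S, T.sharp (a α) := by
    rw [← Finset.sum_add_distrib, aeval_eq_sum']
    rw [Finset.sum_subset (Finset.subset_union_left (s₂ := f'.support)) (fun α _ hα => by
      rw [notMem_support_iff.1 hα]
      change algebraMap K C ((0 : OK T.toTiltPair K) : K) * _ = 0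
      rw [Subring.coe_zero, map_zero, zero_mul])]
    refine Finset.sum_congr rfl fun α _ => ?_
    change _ = _ + T.sharp (_ * _)
    rw [map_mul, map_prod]
    simp only [map_pow]
    ring
  rw [h2]
  refine (T.ultraK _ _).trans (max_le ?_ (h1.trans hpρ))
  refine ultra_sum' T.toTiltPair _ _ hρ0 fun α hα => ?_
  rw [map_mul]
  calc _ ≤ ρ * 1 := mul_le_mul (hf α)
        (prod_le_one' (T := T.toTiltPair) (fun i => by rw [T.abs_sharp]; exact ht i) α)
        (T.absK.nonneg _) hρ0
    _ = ρ := mul_one ρ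

/-- `K = C` is allowed. -/
theorem baseField_self [IsAlgClosed C] [IsAlgClosed F] (T : Tilting p C F) : BaseField T C F where
  perf := fun a => IsAlgClosed.exists_pow_nat_eq a hp.out.pos
  val := by
    obtain ⟨ϖ, hϖ⟩ := T.surj (p : C)
    refine ⟨ϖ, ?_⟩
    change T.absF ϖ = _
    rw [← T.abs_sharp, hϖ]
  θ_mem := fun x _ => ⟨T.θ x, rfl⟩
  θ_surj := fun y hy => by
    obtain ⟨x, hx⟩ := T.θ_surj y hy
    exact ⟨x, fun n => ⟨_, rfl⟩, hx⟩

/-- Approximations within a radius from a lift of the equations. -/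
theorem within_of_coeff [IsAlgClosed F] (T : Tilting p C F) {ρ : ℝ} (hpρ : T.absK p ≤ ρ)
    (hρ1 : ρ < 1) {n r d : ℕ} (P : Fin r → MvPolynomial (Fin (n + 1)) (OK T.toTiltPair K))
    (P' : Fin r → MvPolynomial (Fin (n + 1)) E) (hP' : ∀ l, IsForm (P' l))
    (hf : ∀ l α, T.absK (algebraMap K C (MvPolynomial.coeff α (P l) : OK T.toTiltPair K) -
      T.sharp (algebraMap E F (MvPolynomial.coeff α (P' l)))) ≤ ρ)
    (hdim : DimGE {t : Fin (n + 1) → F | ∀ l, aeval t (P' l) = 0} d) :
    Within T.toTiltPair E P ρ d :=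
  ⟨r, P', hP', hdim, fun t ht h0 l => near_coeff T hpρ hρ1 (P l) (P' l) (hf l) t ht (h0 l)⟩

/-- Approximations within a radius from a lift of the residue field. -/
theorem within_of_lift [IsAlgClosed C] [IsAlgClosed F] (T : Tilting p C F)
    {τ : OK T.toTiltPair K →+* E} (hτ : IsLift T.toTiltPair K E τ) {n r d : ℕ}
    (P : Fin r → MvPolynomial (Fin (n + 1)) (OK T.toTiltPair K))
    (hP : ∀ l, ∃ D, 0 < D ∧ (P l).IsHomogeneous D)
    (hdim : DimGE {x : Fin (n + 1) → C | ∀ l, aeval x (P l) = 0} d) :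
    ∃ ρ : ℝ, ρ < 1 ∧ Within T.toTiltPair E P ρ d := by
  classical
  choose ρ₀ hρ₀ hρ₀1 hρ₀2 using fun l => near_lift T hτ (P l)
  obtain ⟨ρ, hρ1, hρ2⟩ : ∃ ρ : ℝ, ρ < 1 ∧ ∀ l, ρ₀ l ≤ ρ := by
    by_cases hne : (Finset.univ : Finset (Fin r)).Nonempty
    · obtain ⟨j, -, hj⟩ := Finset.exists_max_image Finset.univ ρ₀ hne
      exact ⟨ρ₀ j, hρ₀1 j, fun l => hj l (Finset.mem_univ l)⟩
    · exact ⟨0, one_pos, fun l => absurd ⟨l, Finset.mem_univ l⟩ hne⟩
  choose D hD0 hD using hP
  exact ⟨ρ, hρ1, r, fun l => MvPolynomial.map τ (P l), fun l => ⟨D l, hD0 l, (hD l).map _⟩,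
    dimGE_lift T.toTiltPair τ hD hdim, fun t ht h0 l => (hρ₀2 l t ht (h0 l)).trans (hρ2 l)⟩

end Pool.Agent.Helper45M.DB
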