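import Pool.Agent.Helper45M.DB.Res
set_option autoImplicit false

/-!
# The residue field and the reduction of polynomials
-/

open MvPolynomial WittVector Pool.Agent.Y129.TA Pool.Agent.Y129.TB

set_option linter.unusedSectionVars false

namespace Pool.Agent.Helper45M.DB

variable {p : ℕ} [hp : Fact p.Prime] {C F K E : Type} [Field C] [Field F] [CharP F p] [Field K]
  [Field E] [Algebra K C] [Algebra E F]

/-- The residue field of `K`. -/
abbrev kk (T : TiltPair p C F) (K : Type) [Field K] [Algebra K C] : Type := OK T K ⧸ mK T K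

noncomputable instance kkField (T : TiltPair p C F) : Field (kk T K) :=
  Ideal.Quotient.field (mK T K)

theorem kk_charP (T : TiltPair p C F) : CharP (kk T K) p := by
  rw [CharP.charP_iff_prime_eq_zero hp.out]
  have h1 : ((p : ℕ) : kk T K) = Ideal.Quotient.mk (mK T K) ((p : ℕ) : OK T K) := by
    rw [map_natCast]
  rw [h1, Ideal.Quotient.eq_zero_iff_mem]
  exact p_mem

section

variable {T : TiltPair p C F} {σ : Type}

/-- The reduction of a polynomial. -/
noncomputable abbrev red (T : TiltPair p C F) (K : Type) [Field K] [Algebra K C] (σ : Type) :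
    MvPolynomial σ (OK T K) →+* MvPolynomial σ (kk T K) :=
  MvPolynomial.map (Ideal.Quotient.mk (mK T K))

/-- A polynomial with coefficients in the maximal ideal is the product of a constant in the maximal
ideal and a polynomial. -/
theorem exists_const (f : MvPolynomial σ (OK T K)) (hf : red T K σ f = 0) :
    ∃ b ∈ mK T K, ∃ s, f = MvPolynomial.C b * s ∧ (b = 0 → s = 0) := by
  classical
  by_cases h0 : f = 0
  · exact ⟨0, (mK T K).zero_mem, 0, by rw [h0, mul_zero], fun _ => rfl⟩
  have hne : f.support.Nonempty := by
    rw [Finset.nonempty_iff_ne_empty]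
    exact fun h => h0 (support_eq_empty.1 h)
  obtain ⟨α₀, hα₀, hmax⟩ := Finset.exists_max_image f.support (fun α => av T K (MvPolynomial.coeff α f)) hne
  have hb0 : MvPolynomial.coeff α₀ f ≠ 0 := mem_support_iff.1 hα₀
  have hb : MvPolynomial.coeff α₀ f ∈ mK T K := by
    rw [← Ideal.Quotient.eq_zero_iff_mem, ← coeff_map, hf, coeff_zero]
  have hz : ∀ α, ∃ z, MvPolynomial.coeff α f = MvPolynomial.coeff α₀ f * z := by
    intro α
    by_cases hα : α ∈ f.support
    · exact dvd_of_av_le (hmax α hα) hb0
    · exact ⟨0, by rw [notMem_support_iff.1 hα, mul_zero]⟩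
  choose z hz using hz
  refine ⟨MvPolynomial.coeff α₀ f, hb, ∑ α ∈ f.support, monomial α (z α), ?_, fun h => absurd h hb0⟩
  rw [Finset.mul_sum]
  conv_lhs => rw [← support_sum_monomial_coeff f]
  refine Finset.sum_congr rfl fun α _ => ?_
  rw [C_mul_monomial, ← hz α]

theorem red_surjective : Function.Surjective (red T K σ) :=
  MvPolynomial.map_surjective _ Ideal.Quotient.mk_surjective

end

end Pool.Agent.Helper45M.DB
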