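import Pool.Agent.Helper45M.DB.Iter
set_option autoImplicit false

/-!
# The dimension of the special fibre and of its base changes
-/

open MvPolynomial Pool.Agent.Y129.TA Pool.Agent.Y129.TB

set_option linter.unusedSectionVars false

namespace Pool.Agent.Helper45M.DB

theorem exists_hom_field {k₀ Q L : Type} [Field k₀] [Field Q] [Field L] [Algebra k₀ Q]
    [Algebra k₀ L] [IsAlgClosed L] [Algebra.FiniteType k₀ Q] : Nonempty (Q →ₐ[k₀] L) := by
  have hfin : Module.Finite k₀ Q := finite_of_finite_type_of_isJacobsonRing k₀ Q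
  have halg : Algebra.IsAlgebraic k₀ Q := Algebra.IsAlgebraic.of_finite k₀ Q
  exact ⟨IsAlgClosed.lift⟩

/-- A finitely generated subalgebra of a field has a point over every algebraically closed field. -/
theorem exists_specialization {k₀ F L : Type} [Field k₀] [Field F] [Field L] [Algebra k₀ F]
    [Algebra k₀ L] [IsAlgClosed L] (S : Finset F) :
    ∃ (R : Subalgebra k₀ F) (_ : R →ₐ[k₀] L), ∀ x ∈ S, x ∈ R := by
  let R : Subalgebra k₀ F := Algebra.adjoin k₀ (S : Set F)
  have hfg : R.FG := Subalgebra.fg_adjoin_finset S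
  have hft : Algebra.FiniteType k₀ R := (Subalgebra.fg_iff_finiteType R).1 hfg
  obtain ⟨M, hM⟩ := Ideal.exists_maximal R
  let _ : Field (R ⧸ M) := Ideal.Quotient.field M
  have hft2 : Algebra.FiniteType k₀ (R ⧸ M) := inferInstance
  obtain ⟨ν⟩ := exists_hom_field (k₀ := k₀) (Q := R ⧸ M) (L := L)
  exact ⟨R, ν.comp (Ideal.Quotient.mkₐ k₀ M), fun x hx => Algebra.subset_adjoin hx⟩

/-- The Nullstellensatz for forms without a common zero. -/
theorem exists_identity {F : Type} [Field F] [IsAlgClosed F] {σ ι κ : Type} [Finite σ] [Fintype ι]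
    [Fintype κ] (P : ι → MvPolynomial σ F) (q : κ → MvPolynomial σ F)
    (h : ∀ t : σ → F, (∀ l, eval t (P l) = 0) → (∀ j, eval t (q j) = 0) → t = 0) (i : σ) :
    ∃ (N : ℕ) (A : ι → MvPolynomial σ F) (B : κ → MvPolynomial σ F),
      (X i : MvPolynomial σ F) ^ (N + 1) = ∑ l, A l * P l + ∑ j, B j * q j := by
  classical
  have h1 : (X i : MvPolynomial σ F) ∈ (Ideal.span (Set.range (Sum.elim P q))).radical := by
    rw [← vanishingIdeal_zeroLocus_eq_radical (K := F), mem_vanishingIdeal_iff]
    intro v hv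
    have h2 : ∀ k, eval v (Sum.elim P q k) = 0 := fun k => by
      have h3 := (mem_zeroLocus_iff.1 hv) _ (Ideal.subset_span ⟨k, rfl⟩)
      rwa [aeval_eq_eval] at h3
    rw [aeval_X, h v (fun l => h2 (Sum.inl l)) fun j => h2 (Sum.inr j)]
    rfl
  obtain ⟨N, hN⟩ := h1
  have hN1 : (X i : MvPolynomial σ F) ^ (N + 1) ∈ Ideal.span (Set.range (Sum.elim P q)) := by
    rw [pow_succ]
    exact Ideal.mul_mem_right _ _ hN
  obtain ⟨c, hc⟩ := (Ideal.mem_span_range_iff_exists_fun).1 hN1
  refine ⟨N, fun l => c (Sum.inl l), fun j => c (Sum.inr j), ?_⟩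
  rw [← hc, Fintype.sum_sum_type]
  rfl

/-- The dimension does not depend on the algebraically closed field. -/
theorem dimGE_transfer {k₀ F L : Type} [Field k₀] [Field F] [Field L] [Algebra k₀ F]
    [Algebra k₀ L] [IsAlgClosed L] [IsAlgClosed F] {σ ι : Type} [Fintype σ] [Fintype ι]
    (P : ι → MvPolynomial σ k₀) {d : ℕ} (h : DimGE {x : σ → L | ∀ l, aeval x (P l) = 0} d) :
    DimGE {t : σ → F | ∀ l, aeval t (P l) = 0} d := by
  classical
  intro q hq
  by_contra hno
  push Not at hno
  have h0 : ∀ t : σ → F, (∀ l, eval t (MvPolynomial.map (algebraMap k₀ F) (P l)) = 0) →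
      (∀ j, eval t (q j) = 0) → t = 0 := by
    intro t ht hqt
    by_contra ht0
    obtain ⟨j, hj⟩ := hno t (fun l => by rw [← eval_map_alg]; exact ht l) ht0
    exact hj (hqt j)
  choose N A B hAB using exists_identity _ q h0
  choose D hD0 hD using hq
  let S : Finset F := (Finset.univ.biUnion fun i => Finset.univ.biUnion fun l => (A i l).coeffs) ∪
    ((Finset.univ.biUnion fun i => Finset.univ.biUnion fun j => (B i j).coeffs) ∪
      (Finset.univ.biUnion fun j => (q j).coeffs))
  obtain ⟨R, ν, hR⟩ := exists_specialization (k₀ := k₀) (L := L) S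
  have hlift : ∀ f : MvPolynomial σ F, (∀ c ∈ f.coeffs, c ∈ R) →
      ∃ g : MvPolynomial σ R, MvPolynomial.map (algebraMap R F) g = f := by
    intro f hf
    have h1 : f ∈ Set.range (MvPolynomial.map (σ := σ) (algebraMap R F)) := by
      rw [mem_range_map_iff_coeffs_subset]
      intro c hc
      exact ⟨⟨c, hf c hc⟩, rfl⟩
    exact h1
  have hA : ∀ i l, ∃ g : MvPolynomial σ R, MvPolynomial.map (algebraMap R F) g = A i l :=
    fun i l => hlift _ fun c hc => hR c (Finset.mem_union_left _
      (Finset.mem_biUnion.2 ⟨i, Finset.mem_univ i, Finset.mem_biUnion.2 ⟨l, Finset.mem_univ l, hc⟩⟩))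
  have hB : ∀ i j, ∃ g : MvPolynomial σ R, MvPolynomial.map (algebraMap R F) g = B i j :=
    fun i j => hlift _ fun c hc => hR c (Finset.mem_union_right _ (Finset.mem_union_left _
      (Finset.mem_biUnion.2 ⟨i, Finset.mem_univ i, Finset.mem_biUnion.2 ⟨j, Finset.mem_univ j, hc⟩⟩)))
  have hq' : ∀ j, ∃ g : MvPolynomial σ R, MvPolynomial.map (algebraMap R F) g = q j :=
    fun j => hlift _ fun c hc => hR c (Finset.mem_union_right _ (Finset.mem_union_right _
      (Finset.mem_biUnion.2 ⟨j, Finset.mem_univ j, hc⟩)))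
  choose A' hA' using hA
  choose B' hB' using hB
  choose q' hq' using hq'
  have hinj : Function.Injective (MvPolynomial.map (σ := σ) (algebraMap R F)) :=
    MvPolynomial.map_injective _ Subtype.val_injective
  -- the identity over `R`
  have hid : ∀ i, (X i : MvPolynomial σ R) ^ (N i + 1) =
      ∑ l, A' i l * MvPolynomial.map (algebraMap k₀ R) (P l) + ∑ j, B' i j * q' j := by
    intro i
    apply hinj
    rw [map_pow, map_X, map_add, map_sum, map_sum, hAB i]
    congr 1
    · refine Finset.sum_congr rfl fun l _ => ?_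
      rw [map_mul, hA', MvPolynomial.map_map]
      rfl
    · refine Finset.sum_congr rfl fun j _ => ?_
      rw [map_mul, hB', hq']
  obtain ⟨x, hx, hx0, hqx⟩ := h (fun j => MvPolynomial.map (ν : R →+* L) (q' j)) fun j => by
    refine ⟨D j, hD0 j, IsHomogeneous.map ?_ _⟩
    exact IsHomogeneous.of_map (f := algebraMap R F) Subtype.val_injective (by rw [hq']; exact hD j)
  apply hx0
  funext i
  have h1 := congrArg (fun f => eval x (MvPolynomial.map (ν : R →+* L) f)) (hid i)
  simp only [map_pow, map_X, eval_X, map_add, map_sum, map_mul, MvPolynomial.map_map] at h1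
  have h2 : ∀ l, eval x (MvPolynomial.map ((ν : R →+* L).comp (algebraMap k₀ R)) (P l)) = 0 := by
    intro l
    have h3 : (ν : R →+* L).comp (algebraMap k₀ R) = algebraMap k₀ L := ν.comp_algebraMap
    rw [h3, eval_map_alg]
    exact hx l
  simp only [h2, hqx, mul_zero, Finset.sum_const_zero, add_zero] at h1
  exact pow_eq_zero_iff (Nat.succ_ne_zero _) |>.1 h1

end Pool.Agent.Helper45M.DB
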