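import Pool.Agent.Helper45M.DB.Small
set_option autoImplicit false

/-!
# Flat models, inseparable maps, approximations within a radius: definitions

`A` is a ring with a homomorphism to `C`; later it is the ring of integers of `K`.
-/

open MvPolynomial Pool.Agent.Y129.TA Pool.Agent.Y129.TB

namespace Pool.Agent.Helper45M.DB

variable {p : ℕ} {C F : Type} [Field C] [Field F]

/-- The coefficients of `f` have absolute value at most `β`. -/
def CoeffLE (T : TiltPair p C F) {A : Type} [CommRing A] [Algebra A C] {n : ℕ}
    (f : MvPolynomial (Fin n) A) (β : ℝ) : Prop :=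
  ∀ α, T.absK (algebraMap A C (coeff α f)) ≤ β

/-- `f` is, modulo the maximal ideal, in the ideal generated by the polynomials in `S`. -/
def InMod (T : TiltPair p C F) {A : Type} [CommRing A] [Algebra A C] {n : ℕ}
    (S : Set (MvPolynomial (Fin n) A)) (f : MvPolynomial (Fin n) A) : Prop :=
  ∃ q ∈ Ideal.span S, ∀ α, T.absK (algebraMap A C (coeff α (f - q))) < 1

/-- The forms `P l` over the ring of integers define a flat closed subscheme of projective space the
special fibre of which is reduced. -/
structure IsModel (T : TiltPair p C F) {A : Type} [CommRing A] [Algebra A C] {n r : ℕ}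
    (P : Fin r → MvPolynomial (Fin (n + 1)) A) : Prop where
  form : ∀ l, ∃ D, 0 < D ∧ (P l).IsHomogeneous D
  flat : ∀ (b : A) (s : MvPolynomial (Fin (n + 1)) A), b ≠ 0 →
    MvPolynomial.C b * s ∈ Ideal.span (Set.range P) → s ∈ Ideal.span (Set.range P)
  reduced : ∀ (g : MvPolynomial (Fin (n + 1)) A) (k : ℕ), InMod T (Set.range P) (g ^ k) →
    InMod T (Set.range P) g

/-- The forms `Φ i` of degree `e` define a morphism from the closed subscheme defined by the `R l` to
the closed subscheme defined by the `P l`, and in the homogeneous coordinate ring of the source they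
are `p`-th powers up to polynomials with coefficients of absolute value at most `β`. -/
structure IsInseparableMap (T : TiltPair p C F) {A : Type} [CommRing A] [Algebra A C] {n r m s : ℕ}
    (P : Fin r → MvPolynomial (Fin (n + 1)) A) (R : Fin s → MvPolynomial (Fin (m + 1)) A)
    (Φ : Fin (n + 1) → MvPolynomial (Fin (m + 1)) A) (e : ℕ) (β : ℝ) : Prop where
  pos : 0 < e
  hom : ∀ i, (Φ i).IsHomogeneous e
  maps : ∀ l, aeval Φ (P l) ∈ Ideal.span (Set.range R)
  defined : ∀ i, ∃ N, InMod T (Set.range R ∪ Set.range Φ) (X i ^ N)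
  insep : ∀ i, ∃ g, ∃ q ∈ Ideal.span (Set.range R), CoeffLE T (Φ i - g ^ p - q) β

/-- There is a closed set of dimension at least `d` defined over `E` such that `|P_l(y♯)| ≤ ρ` for all
`l` and all points `y` of it in the unit ball. -/
def Within (T : TiltPair p C F) (E : Type) [Field E] [Algebra E F] {A : Type} [CommRing A]
    [Algebra A C] {n r : ℕ} (P : Fin r → MvPolynomial (Fin (n + 1)) A) (ρ : ℝ) (d : ℕ) : Prop :=
  ∃ (s : ℕ) (G : Fin s → MvPolynomial (Fin (n + 1)) E), (∀ k, IsForm (G k)) ∧
    DimGE {t : Fin (n + 1) → F | ∀ k, aeval t (G k) = 0} d ∧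
    ∀ t : Fin (n + 1) → F, (∀ i, T.absF (t i) ≤ 1) → (∀ k, aeval t (G k) = 0) →
      ∀ l, T.absK (aeval (fun i => T.sharp (t i)) (P l)) ≤ ρ

/-- The set of the common zeros. -/
def zeros {n r : ℕ} {A : Type} (L : Type) [Field L] [CommRing A] [Algebra A L]
    (P : Fin r → MvPolynomial (Fin (n + 1)) A) : Set (Fin (n + 1) → L) :=
  {x | ∀ l, aeval x (P l) = 0}

/-- Q1 holds over `K` for the closed subset of dimension `d` defined by the `P_l` (if it has dimension at
most `d`). -/
def HasQ1 (T : TiltPair p C F) (K E : Type) [Field K] [Field E] [Algebra K C] [Algebra E F]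
    {A : Type} [CommRing A] [Algebra A C] {n r : ℕ} (P : Fin r → MvPolynomial (Fin (n + 1)) A)
    (d : ℕ) : Prop :=
  DimLEOver K (zeros C P) d → IsConeOver K (zeros C P) ∧ Approximable T K E (zeros C P) d

/-- The coefficients `c'` of the `P'_l` are close to the coefficients `c` of the `P_l`: `|c - c'♯| ≤ ρ`. -/
def IsNear (T : TiltPair p C F) {E : Type} [Field E] [Algebra E F] {A : Type} [CommRing A]
    [Algebra A C] {n r : ℕ} (P : Fin r → MvPolynomial (Fin (n + 1)) A)
    (P' : Fin r → MvPolynomial (Fin (n + 1)) E) (ρ : ℝ) : Prop :=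
  ∀ l α, T.absK (algebraMap A C (coeff α (P l)) - T.sharp (algebraMap E F (coeff α (P' l)))) ≤ ρ

/-- A ring homomorphism from the ring of integers to `E` which lifts the identification of the
residue fields. -/
def IsResLift (T : TiltPair p C F) {E : Type} [Field E] [Algebra E F] {A : Type} [CommRing A]
    [Algebra A C] (τ : A →+* E) : Prop :=
  ∀ c, T.absK (algebraMap A C c - T.sharp (algebraMap E F (τ c))) < 1

/-- A tower of flat models with reduced special fibres and uniformly inseparable transition maps. -/
structure IsTower (T : TiltPair p C F) {A : Type} [CommRing A] [Algebra A C] {n r : ℕ → ℕ}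
    (P : ∀ m, Fin (r m) → MvPolynomial (Fin (n m + 1)) A)
    (Φ : ∀ m, Fin (n m + 1) → MvPolynomial (Fin (n (m + 1) + 1)) A) (e : ℕ → ℕ) (β : ℝ) :
    Prop where
  model : ∀ m, IsModel T (P m)
  maps : ∀ m, IsInseparableMap T (P m) (P (m + 1)) (Φ m) (e m) β

/-- The ring of integers of `K`, as a type. -/
def OT (T : TiltPair p C F) (K : Type) [Field K] [Algebra K C] : Type := OK T K

noncomputable instance (T : TiltPair p C F) (K : Type) [Field K] [Algebra K C] :
    CommRing (OT T K) := (OK T K).toCommRing

noncomputable instance (T : TiltPair p C F) (K : Type) [Field K] [Algebra K C] :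
    Algebra (OT T K) C := Algebra.ofSubsemiring (OK T K)

end Pool.Agent.Helper45M.DB
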