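import Pool.Agent.Helper45M.DB.Contr
set_option autoImplicit false

/-!
# Values of polynomials with integral coefficients
-/

open MvPolynomial Pool.Agent.Y129.TA Pool.Agent.Y129.TB

set_option linter.unusedSectionVars false

namespace Pool.Agent.Helper45M.DB

variable {p : ℕ} [hp : Fact p.Prime] {C F K : Type} [Field C] [Field F] [CharP F p] [Field K]
  [Algebra K C] {T : TiltPair p C F} {σ ι : Type} [Fintype σ] [Fintype ι]

theorem ultra_sum' (T : TiltPair p C F) {α : Type} (s : Finset α) (f : α → C) {B : ℝ} (hB : 0 ≤ B)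
    (h : ∀ i ∈ s, T.absK (f i) ≤ B) : T.absK (∑ i ∈ s, f i) ≤ B := by
  classical
  induction s using Finset.induction_on with
  | empty => rwa [Finset.sum_empty, AbsoluteValue.map_zero]
  | insert i s hi ih =>
    rw [Finset.sum_insert hi]
    exact (T.ultraK _ _).trans (max_le (h i (Finset.mem_insert_self i s))
      (ih fun j hj => h j (Finset.mem_insert_of_mem hj)))

theorem aeval_eq_sum' (s : MvPolynomial σ (OK T K)) (z : σ → C) :
    aeval z s = ∑ α ∈ s.support, algebraMap K C (coeff α s : OK T K) * ∏ i, z i ^ α i := by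
  rw [aeval_def, eval₂_eq']
  rfl

theorem prod_le_one' {z : σ → C} (hz : ∀ i, T.absK (z i) ≤ 1) (α : σ →₀ ℕ) :
    T.absK (∏ i, z i ^ α i) ≤ 1 := by
  rw [map_prod]
  refine Finset.prod_le_one (fun i _ => T.absK.nonneg _) fun i _ => ?_
  rw [map_pow]
  exact pow_le_one₀ (T.absK.nonneg _) (hz i)

theorem aeval_le_one (s : MvPolynomial σ (OK T K)) {z : σ → C} (hz : ∀ i, T.absK (z i) ≤ 1) :
    T.absK (aeval z s) ≤ 1 := by
  rw [aeval_eq_sum']
  refine ultra_sum' T _ _ zero_le_one fun α _ => ?_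
  rw [map_mul]
  exact mul_le_one₀ (av_le_one _) (T.absK.nonneg _) (prod_le_one' hz α)

/-- The elements of the ideal are small where the generators are small. -/
theorem aeval_le_of_mem {P : ι → MvPolynomial σ (OK T K)} {s : MvPolynomial σ (OK T K)}
    (hs : s ∈ Ideal.span (Set.range P)) {z : σ → C} (hz : ∀ i, T.absK (z i) ≤ 1) {τ : ℝ}
    (hτ : 0 ≤ τ) (hP : ∀ l, T.absK (aeval z (P l)) ≤ τ) : T.absK (aeval z s) ≤ τ := by
  obtain ⟨c, hc⟩ := (Ideal.mem_span_range_iff_exists_fun).1 hs
  rw [← hc, map_sum]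
  refine ultra_sum' T _ _ hτ fun l _ => ?_
  rw [map_mul, map_mul]
  calc T.absK (aeval z (c l)) * T.absK (aeval z (P l)) ≤ 1 * τ :=
        mul_le_mul (aeval_le_one _ hz) (hP l) (T.absK.nonneg _) zero_le_one
    _ = τ := one_mul τ

/-- The polynomials which vanish in the special fibre have values of absolute value less than `1`. -/
theorem aeval_lt_of_red (f : MvPolynomial σ (OK T K)) (hf : red T K σ f = 0) {z : σ → C}
    (hz : ∀ i, T.absK (z i) ≤ 1) : T.absK (aeval z f) < 1 := by
  obtain ⟨b, hb, s, rfl, -⟩ := exists_const f hf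
  rw [map_mul, map_mul, aeval_C]
  exact mul_lt_one_of_nonneg_of_lt_one_left (T.absK.nonneg _) hb (aeval_le_one s hz)

end Pool.Agent.Helper45M.DB
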