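import Mathlib
set_option autoImplicit false

/-!
# Coefficient fields of valuation rings of algebraically closed fields
-/

open MvPolynomial

namespace Pool.Agent.Helper45M.DB

theorem exists_algHom {L₀ κ F : Type} [Field L₀] [Field κ] [Field F] [Algebra L₀ κ] [Algebra L₀ F]
    [Algebra.IsAlgebraic L₀ κ] [IsAlgClosed F] : Nonempty (κ →ₐ[L₀] F) := ⟨IsAlgClosed.lift⟩

theorem algHom_bijective' {L₀ κ : Type} [Field L₀] [Field κ] [Algebra L₀ κ]
    [Algebra.IsAlgebraic L₀ κ] (α : κ →ₐ[L₀] κ) : Function.Bijective α :=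
  Algebra.IsAlgebraic.algHom_bijective α

/-- The valuation ring of an algebraically closed field of characteristic `p` with residue field of
characteristic `p` contains a field which is mapped isomorphically onto the residue field. -/
theorem exists_section {F κ : Type} [Field F] [IsAlgClosed F] [Field κ] (p : ℕ) [Fact p.Prime]
    [CharP F p] [CharP κ p] (O : Subring F)
    (hint : ∀ x : F, (∃ f : Polynomial F, f.Monic ∧ (∀ n, f.coeff n ∈ O) ∧ f.eval x = 0) → x ∈ O)
    (ψ : O →+* κ) (hψ : Function.Surjective ψ) (hu : ∀ x : O, ψ x ≠ 0 → (x : F)⁻¹ ∈ O) :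
    ∃ τ : κ →+* O, ∀ z, ψ (τ z) = z := by
  classical
  let _ : Algebra (ZMod p) κ := ZMod.algebra κ p
  have hO : CharP O p := CharP.subring F p O
  let _ : Algebra (ZMod p) O := ZMod.algebra O p
  obtain ⟨s, hs⟩ := exists_isTranscendenceBasis (ZMod p) κ
  choose y hy using fun b : s => hψ (b : κ)
  let φO : MvPolynomial s (ZMod p) →+* O := (aeval y : MvPolynomial s (ZMod p) →ₐ[ZMod p] O)
  let φκ : MvPolynomial s (ZMod p) →+* κ :=
    (aeval (fun b : s => (b : κ)) : MvPolynomial s (ZMod p) →ₐ[ZMod p] κ)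
  have hcomp : ψ.comp φO = φκ := by
    apply MvPolynomial.ringHom_ext
    · intro c
      exact RingHom.congr_fun (Subsingleton.elim ((ψ.comp φO).comp C) (φκ.comp C)) c
    · intro b
      simp [φO, φκ, hy]
  have hcomp' : ∀ a, ψ (φO a) = φκ a := fun a => RingHom.congr_fun hcomp a
  have hinj : Function.Injective φκ := hs.1
  let φF : MvPolynomial s (ZMod p) →+* F := O.subtype.comp φO
  have hne : ∀ a, a ≠ 0 → φκ a ≠ 0 := fun a ha h0 => ha (hinj (by rw [h0, map_zero]))
  have hneF : ∀ a, a ≠ 0 → φF a ≠ 0 := by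
    intro a ha h0
    apply hne a ha
    rw [← hcomp']
    have h1 : φO a = 0 := Subtype.ext h0
    rw [h1, map_zero]
  have hinjF : Function.Injective φF := (injective_iff_map_eq_zero _).2 fun a ha => by
    by_contra h
    exact hneF a h ha
  -- the homomorphism on the field of fractions
  let jF : FractionRing (MvPolynomial s (ZMod p)) →+* F := IsFractionRing.lift hinjF
  let L₀ := IntermediateField.adjoin (ZMod p) (Set.range (fun b : s => (b : κ)))
  let e : FractionRing (MvPolynomial s (ZMod p)) ≃ₐ[ZMod p] L₀ := hs.1.aevalEquivField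
  let j : L₀ →+* F := jF.comp (e.symm : L₀ →+* _)
  -- fractions
  have hfrac : ∀ ℓ : L₀, ∃ a b : MvPolynomial s (ZMod p), b ≠ 0 ∧ j ℓ = φF a * (φF b)⁻¹ ∧
      (ℓ : κ) * φκ b = φκ a := by
    intro ℓ
    obtain ⟨a, b, hb, hab⟩ := IsFractionRing.div_surjective (A := MvPolynomial s (ZMod p))
      (e.symm ℓ)
    have hb0 : b ≠ 0 := nonZeroDivisors.ne_zero hb
    refine ⟨a, b, hb0, ?_, ?_⟩
    · change jF (e.symm ℓ) = _
      rw [← hab, map_div₀, IsFractionRing.lift_algebraMap, IsFractionRing.lift_algebraMap,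
        div_eq_mul_inv]
    · have h1 : ((e (e.symm ℓ) : L₀) : κ) * φκ b = φκ a := by
        have h2 : ∀ c : MvPolynomial s (ZMod p),
            ((e (algebraMap _ _ c) : L₀) : κ) = φκ c := by
          intro c
          have h3 := hs.1.aevalEquivField_algebraMap_apply_coe c
          exact h3
        have h4 : (e.symm ℓ) * algebraMap _ _ b = algebraMap _ _ a := by
          rw [← hab]
          refine div_mul_cancel₀ _ ?_
          rw [Ne, IsFractionRing.to_map_eq_zero_iff]
          exact hb0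
        have h5 := congrArg (fun c => ((e c : L₀) : κ)) h4
        simp only [map_mul, MulMemClass.coe_mul, h2] at h5
        exact h5
      rwa [AlgEquiv.apply_symm_apply] at h1
  have hjO : ∀ ℓ : L₀, ∃ u : O, (u : F) = j ℓ ∧ ψ u = (ℓ : κ) := by
    intro ℓ
    obtain ⟨a, b, hb, h1, h2⟩ := hfrac ℓ
    have hb1 : ψ (φO b) ≠ 0 := by rw [hcomp']; exact hne b hb
    let v : O := ⟨(φO b : F)⁻¹, hu (φO b) hb1⟩
    have hv : v * φO b = 1 := Subtype.ext (inv_mul_cancel₀ (hneF b hb))
    refine ⟨φO a * v, by rw [h1]; rfl, ?_⟩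
    have h3 : ψ v * ψ (φO b) = 1 := by rw [← map_mul, hv, map_one]
    rw [map_mul, hcomp', ← h2, ← hcomp' b, mul_assoc, mul_comm _ (ψ v), h3, mul_one]
  let _ : Algebra L₀ F := j.toAlgebra
  have halg : Algebra.IsAlgebraic L₀ κ := hs.isAlgebraic_field
  obtain ⟨g⟩ := exists_algHom (L₀ := L₀) (κ := κ) (F := F)
  have hgO : ∀ z, g z ∈ O := by
    intro z
    have hz : IsIntegral L₀ z := Algebra.IsIntegral.isIntegral z
    refine hint _ ⟨(minpoly L₀ z).map (algebraMap L₀ F), (minpoly.monic hz).map _, fun n => ?_, ?_⟩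
    · rw [Polynomial.coeff_map]
      obtain ⟨u, hu1, -⟩ := hjO ((minpoly L₀ z).coeff n)
      have h1 : algebraMap L₀ F ((minpoly L₀ z).coeff n) = (u : F) := hu1.symm
      rw [h1]
      exact u.2
    · rw [Polynomial.eval_map, ← Polynomial.aeval_def, Polynomial.aeval_algHom_apply,
        minpoly.aeval, map_zero]
  let g' : κ →+* O := (g : κ →+* F).codRestrict O hgO
  let α : κ →ₐ[L₀] κ :=
    { ψ.comp g' with
      commutes' := by
        intro ℓ
        obtain ⟨u, hu1, hu2⟩ := hjO ℓ
        change ψ (g' (algebraMap L₀ κ ℓ)) = _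
        have h1 : g' (algebraMap L₀ κ ℓ) = u := by
          apply Subtype.ext
          change g (algebraMap L₀ κ ℓ) = _
          rw [AlgHom.commutes, hu1]
          rfl
        rw [h1, hu2]
        rfl }
  have hbij : Function.Bijective α := algHom_bijective' α
  let α' : κ ≃+* κ := RingEquiv.ofBijective α.toRingHom hbij
  refine ⟨g'.comp (α'.symm : κ →+* κ), fun z => ?_⟩
  have h1 : α' (α'.symm z) = z := α'.apply_symm_apply z
  exact h1

end Pool.Agent.Helper45M.DB
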