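import Pool.Agent.Helper45M.DB.ResDim
import Pool.Agent.Helper45M.DB.Sect
set_option autoImplicit false

/-!
# The residue field of `C`, and lifts of residue fields to the tilt
-/

open MvPolynomial WittVector Pool.Agent.Y129.TA Pool.Agent.Y129.TB

set_option linter.unusedSectionVars false

namespace Pool.Agent.Helper45M.DB

/-- The roots of monic polynomials with coefficients in the unit ball are in the unit ball. -/
theorem root_le_one {L : Type} [Field L] {a : AbsoluteValue L ℝ}
    (ha : ∀ x y, a (x + y) ≤ max (a x) (a y)) {f : Polynomial L} (hf : f.Monic)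
    (hc : ∀ n, a (f.coeff n) ≤ 1) {x : L} (hx : f.eval x = 0) : a x ≤ 1 := by
  classical
  by_contra hlt
  push Not at hlt
  have hsum : ∀ (s : Finset ℕ) (g : ℕ → L) (B : ℝ), 0 ≤ B → (∀ i ∈ s, a (g i) ≤ B) →
      a (∑ i ∈ s, g i) ≤ B := by
    intro s g B hB h
    induction s using Finset.induction_on with
    | empty => rwa [Finset.sum_empty, AbsoluteValue.map_zero]
    | insert i s hi ih =>
      rw [Finset.sum_insert hi]
      exact (ha _ _).trans (max_le (h i (Finset.mem_insert_self i s))
        (ih fun j hj => h j (Finset.mem_insert_of_mem hj)))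
  rw [Polynomial.eval_eq_sum_range, Finset.sum_range_succ, hf.coeff_natDegree, one_mul] at hx
  have h1 : x ^ f.natDegree = -∑ i ∈ Finset.range f.natDegree, f.coeff i * x ^ i :=
    (neg_eq_of_add_eq_zero_right hx).symm
  rcases Nat.eq_zero_or_pos f.natDegree with h0 | h0
  · rw [h0] at h1
    simp at h1
  · have h2 : a (x ^ f.natDegree) ≤ a x ^ (f.natDegree - 1) := by
      rw [h1, AbsoluteValue.map_neg]
      refine hsum _ _ _ (pow_nonneg (a.nonneg x) _) fun i hi => ?_
      rw [map_mul, map_pow]
      have h3 : a x ^ i ≤ a x ^ (f.natDegree - 1) :=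
        pow_le_pow_right₀ hlt.le (by have := Finset.mem_range.1 hi; omega)
      calc a (f.coeff i) * a x ^ i ≤ 1 * a x ^ i :=
            mul_le_mul_of_nonneg_right (hc i) (pow_nonneg (a.nonneg x) _)
        _ = a x ^ i := one_mul _
        _ ≤ _ := h3
    rw [map_pow] at h2
    have h4 : a x ^ (f.natDegree - 1) < a x ^ f.natDegree :=
      pow_lt_pow_right₀ hlt (by omega)
    exact absurd h2 (not_le.2 h4)

variable {p : ℕ} [hp : Fact p.Prime] {C F K E : Type} [Field C] [Field F] [CharP F p] [Field K]
  [Field E] [Algebra K C] [Algebra E F] {σ ι : Type} [Fintype σ] [Fintype ι]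

instance kk_isAlgClosed [IsAlgClosed C] (T : TiltPair p C F) : IsAlgClosed (kk T C) := by
  refine IsAlgClosed.of_exists_root _ fun f hf hirr => ?_
  obtain ⟨g, hg, hgdeg, hgm⟩ := Polynomial.lifts_and_degree_eq_and_monic
    (f := Ideal.Quotient.mk (mK T C)) (p := f) (by
      rw [Polynomial.lifts_iff_coeff_lifts]
      intro n
      exact Ideal.Quotient.mk_surjective _) hf
  have hdeg : (g.map (OK T C).subtype).degree ≠ 0 := by
    rw [Polynomial.degree_map_eq_of_injective Subtype.val_injective, hgdeg]
    exact (Polynomial.degree_pos_of_irreducible hirr).ne'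
  obtain ⟨x, hx⟩ := IsAlgClosed.exists_root _ hdeg
  have hx1 : T.absK x ≤ 1 := by
    refine root_le_one T.ultraK (hgm.map _) (fun n => ?_) hx
    rw [Polynomial.coeff_map]
    exact (g.coeff n).2
  refine ⟨Ideal.Quotient.mk (mK T C) ⟨x, hx1⟩, ?_⟩
  have h1 : g.eval (⟨x, hx1⟩ : OK T C) = 0 := by
    apply Subtype.ext
    have h2 : (OK T C).subtype (g.eval (⟨x, hx1⟩ : OK T C)) = (g.map (OK T C).subtype).eval x := by
      rw [Polynomial.eval_map]
      exact (Polynomial.eval₂_at_apply (p := g) (OK T C).subtype ⟨x, hx1⟩).symm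
    exact h2.trans hx
  rw [← hg, Polynomial.eval_map, Polynomial.eval₂_at_apply, h1, map_zero]

/-- The map `x ↦ x♯` is additive modulo `p`. -/
theorem sharp_sum_near [IsAlgClosed F] (T : Tilting p C F) {α : Type} (s : Finset α) (f : α → F)
    (hf : ∀ i ∈ s, T.absF (f i) ≤ 1) :
    T.absK (∑ i ∈ s, T.sharp (f i) - T.sharp (∑ i ∈ s, f i)) ≤ T.absK p := by
  classical
  let f' : α → T.O := fun i => if h : T.absF (f i) ≤ 1 then ⟨f i, h⟩ else 0
  have hf' : ∀ i ∈ s, ((f' i : T.O) : F) = f i := fun i hi => by
    simp only [f', dif_pos (hf i hi)]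
  have h1 := Tilting.abs_sub_le T (∑ i ∈ s, teichmuller p (f' i))
  have h2 : T.θ (∑ i ∈ s, teichmuller p (f' i)) = ∑ i ∈ s, T.sharp (f i) := by
    rw [map_sum]
    refine Finset.sum_congr rfl fun i hi => ?_
    rw [T.θ_teich, hf' i hi]
  have h3 : (((∑ i ∈ s, teichmuller p (f' i)).coeff 0 : T.O) : F) = ∑ i ∈ s, f i := by
    have h4 : (∑ i ∈ s, teichmuller p (f' i)).coeff 0 = ∑ i ∈ s, f' i := by
      have h5 := map_sum (WittVector.constantCoeff (p := p) (R := T.O))
        (fun i => teichmuller p (f' i)) s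
      have h6 : ∀ w : WittVector p T.O, WittVector.constantCoeff (p := p) w = w.coeff 0 :=
        fun w => rfl
      rw [h6] at h5
      rw [h5]
      refine Finset.sum_congr rfl fun i _ => ?_
      rw [h6, teichmuller_coeff_zero]
    rw [h4]
    push_cast
    exact Finset.sum_congr rfl hf'
  rw [h2, h3] at h1
  exact h1

/-- A ring homomorphism from the ring of integers of `K` to `E` which lifts the identification of the
residue fields. -/
def IsLift (T : TiltPair p C F) (K E : Type) [Field K] [Field E] [Algebra K C] [Algebra E F]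
    (τ : OK T K →+* E) : Prop :=
  ∀ c : OK T K, T.absK (algebraMap K C c - T.sharp (algebraMap E F (τ c))) < 1

theorem IsLift.le {T : TiltPair p C F} {τ : OK T K →+* E} (h : IsLift T K E τ) (c : OK T K) :
    T.absF (algebraMap E F (τ c)) ≤ 1 := by
  rw [← T.abs_sharp]
  have h1 : T.sharp (algebraMap E F (τ c)) = algebraMap K C c +
      -(algebraMap K C c - T.sharp (algebraMap E F (τ c))) := by ring
  rw [h1]
  refine (T.ultraK _ _).trans (max_le c.2 ?_)
  rw [AbsoluteValue.map_neg]
  exact (h c).le

theorem IsLift.eq_zero {T : TiltPair p C F} (τ : OK T K →+* E)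
    {c : OK T K} (hc : c ∈ mK T K) : τ c = 0 := by
  have hpE : ((p : ℕ) : E) = 0 := by
    apply (algebraMap E F).injective
    rw [map_natCast, map_zero]
    exact CharP.cast_eq_zero F p
  have hpp : 0 < T.absK p := T.absK.pos T.p_ne
  obtain ⟨N, hN⟩ := exists_pow_lt_of_lt_one hpp (show av T K c < 1 from hc)
  have hp1 : av T K ((p : ℕ) : OK T K) = T.absK p := by
    have h1 : (((p : ℕ) : OK T K) : K) = (p : K) := by push_cast; rfl
    change T.absK (algebraMap K C (((p : ℕ) : OK T K) : K)) = _
    rw [h1, map_natCast]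
  have hpow : ∀ n : ℕ, av T K (c ^ n) = av T K c ^ n := by
    intro n
    induction n with
    | zero =>
      rw [pow_zero, pow_zero]
      change T.absK (algebraMap K C (1 : K)) = 1
      rw [map_one, map_one]
    | succ n ih => rw [pow_succ, pow_succ, av_mul, ih]
  have hp0 : ((p : ℕ) : OK T K) ≠ 0 := fun h0 => by
    rw [h0, av_zero] at hp1
    exact hpp.ne hp1
  obtain ⟨z, hz⟩ := dvd_of_av_le (x := c ^ N) (y := ((p : ℕ) : OK T K))
    (by rw [hpow, hp1]; exact hN.le) hp0
  have h1 : τ c ^ N = 0 := by
    rw [← map_pow, hz, map_mul, map_natCast, hpE, zero_mul]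
  exact eq_zero_of_pow_eq_zero h1

/-- For the algebraically closed field `C` there is a lift. -/
theorem exists_lift [IsAlgClosed C] [IsAlgClosed F] (T : Tilting p C F) :
    ∃ τ : OK T.toTiltPair C →+* F, IsLift T.toTiltPair C F τ := by
  classical
  have hcharκ : CharP (kk T.toTiltPair C) p := kk_charP T.toTiltPair
  have hmem : ∀ x : T.O, T.absK (T.sharp (x : F)) ≤ 1 := fun x => by
    rw [T.abs_sharp]
    exact x.2
  let ψ : T.O →+* kk T.toTiltPair C :=
    { toFun := fun x => Ideal.Quotient.mk (mK T.toTiltPair C) ⟨T.sharp (x : F), hmem x⟩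
      map_one' := by
        have h1 : (⟨T.sharp ((1 : T.O) : F), hmem 1⟩ : OK T.toTiltPair C) = 1 :=
          Subtype.ext (by
            change T.sharp ((1 : T.O) : F) = 1
            rw [Subring.coe_one, map_one])
        rw [h1, map_one]
      map_mul' := by
        intro x y
        rw [← map_mul]
        congr 1
        exact Subtype.ext (by
          change T.sharp ((x * y : T.O) : F) = T.sharp (x : F) * T.sharp (y : F)
          rw [Subring.coe_mul, map_mul])
      map_zero' := by
        have h1 : (⟨T.sharp ((0 : T.O) : F), hmem 0⟩ : OK T.toTiltPair C) = 0 :=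
          Subtype.ext (by
            change T.sharp ((0 : T.O) : F) = 0
            rw [Subring.coe_zero]
            exact T.toTiltPair.sharp_zero)
        rw [h1, map_zero]
      map_add' := by
        intro x y
        rw [← map_add, Ideal.Quotient.eq]
        change T.absK (T.sharp ((x + y : T.O) : F) - (T.sharp (x : F) + T.sharp (y : F))) < 1
        have h1 := Tilting.abs_sub_le T (teichmuller p x + teichmuller p y)
        have h2 : (teichmuller p x + teichmuller p y).coeff 0 = x + y := by
          have h5 := map_add (WittVector.constantCoeff (p := p) (R := T.O))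
            (teichmuller p x) (teichmuller p y)
          have h6 : ∀ w : WittVector p T.O, WittVector.constantCoeff (p := p) w = w.coeff 0 :=
            fun w => rfl
          rw [h6, h6, h6, teichmuller_coeff_zero, teichmuller_coeff_zero] at h5
          exact h5
        rw [h2, map_add, T.θ_teich, T.θ_teich] at h1
        have h3 : T.sharp ((x + y : T.O) : F) - (T.sharp (x : F) + T.sharp (y : F)) =
            -(T.sharp (x : F) + T.sharp (y : F) - T.sharp ((x + y : T.O) : F)) := by ring
        rw [h3, AbsoluteValue.map_neg]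
        exact h1.trans_lt T.p_lt }
  have hψ : Function.Surjective ψ := by
    intro z
    obtain ⟨c, rfl⟩ := Ideal.Quotient.mk_surjective z
    obtain ⟨x, hx⟩ := T.surj (c : C)
    have hx1 : T.absF x ≤ 1 := by
      rw [← T.abs_sharp, hx]
      exact c.2
    refine ⟨⟨x, hx1⟩, ?_⟩
    change Ideal.Quotient.mk (mK T.toTiltPair C) ⟨T.sharp x, _⟩ = _
    congr 1
    exact Subtype.ext hx
  have hu : ∀ x : T.O, ψ x ≠ 0 → (x : F)⁻¹ ∈ T.O := by
    intro x hx
    have h1 : ¬ T.absK (T.sharp (x : F)) < 1 := fun h =>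
      hx (Ideal.Quotient.eq_zero_iff_mem.2 h)
    rw [T.abs_sharp, not_lt] at h1
    change T.absF (x : F)⁻¹ ≤ 1
    rw [map_inv₀]
    exact inv_le_one_of_one_le₀ h1
  obtain ⟨τ, hτ⟩ := exists_section p T.O (fun x ⟨f, hf, hc, hx⟩ =>
    root_le_one T.ultraF hf hc hx) ψ hψ hu
  refine ⟨(T.O.subtype.comp τ).comp (Ideal.Quotient.mk (mK T.toTiltPair C)), fun c => ?_⟩
  have h1 := hτ (Ideal.Quotient.mk (mK T.toTiltPair C) c)
  have h2 : Ideal.Quotient.mk (mK T.toTiltPair C)
      ⟨T.sharp ((τ (Ideal.Quotient.mk (mK T.toTiltPair C) c) : T.O) : F), hmem _⟩ =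
      Ideal.Quotient.mk (mK T.toTiltPair C) c := h1
  have h3 := Ideal.Quotient.eq.1 h2.symm
  exact h3

end Pool.Agent.Helper45M.DB
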