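import Pool.Agent.Helper45M.DB.Lift
set_option autoImplicit false

/-!
# Approximation for varieties with a contracting self-map
-/

open MvPolynomial WittVector Pool.Agent.Y129.TA Pool.Agent.Y129.TB Pool.Agent.R388.TP

set_option linter.unusedSectionVars false

namespace Pool.Agent.Helper45M.DB

variable {p : ℕ} [hp : Fact p.Prime] {C F K E : Type} [Field C] [Field F] [CharP F p] [Field K]
  [Field E] [Algebra K C] [Algebra E F] {σ ι : Type} [Fintype σ] [Fintype ι]

theorem near_lift [IsAlgClosed F] (T : Tilting p C F) {τ : OK T.toTiltPair K →+* E}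
    (hτ : IsLift T.toTiltPair K E τ) (f : MvPolynomial σ (OK T.toTiltPair K)) :
    ∃ ρ : ℝ, 0 ≤ ρ ∧ ρ < 1 ∧ ∀ t : σ → F, (∀ i, T.absF (t i) ≤ 1) →
      aeval t (MvPolynomial.map τ f) = 0 →
        T.absK (aeval (fun i => T.sharp (t i)) f) ≤ ρ := by
  classical
  have hpp : 0 < T.absK p := T.absK.pos T.p_ne
  obtain ⟨ρ, hρ0, hρ1, hρ⟩ : ∃ ρ : ℝ, T.absK p ≤ ρ ∧ ρ < 1 ∧ ∀ α ∈ f.support,
      T.absK (algebraMap K C (MvPolynomial.coeff α f : OK T.toTiltPair K) -
        T.sharp (algebraMap E F (τ (MvPolynomial.coeff α f)))) ≤ ρ := by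
    by_cases hne : f.support.Nonempty
    · obtain ⟨α₀, -, hα₀⟩ := Finset.exists_max_image f.support (fun α =>
        T.absK (algebraMap K C (MvPolynomial.coeff α f : OK T.toTiltPair K) -
          T.sharp (algebraMap E F (τ (MvPolynomial.coeff α f))))) hne
      exact ⟨max (T.absK p) _, le_max_left _ _, max_lt T.p_lt (hτ _),
        fun α hα => (hα₀ α hα).trans (le_max_right _ _)⟩
    · exact ⟨T.absK p, le_rfl, T.p_lt, fun α hα => absurd ⟨α, hα⟩ hne⟩
  refine ⟨ρ, hpp.le.trans hρ0, hρ1, fun t ht h0 => ?_⟩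
  let a : (σ →₀ ℕ) → F := fun α => algebraMap E F (τ (MvPolynomial.coeff α f)) * ∏ i, t i ^ α i
  have ha : ∀ α ∈ f.support, T.absF (a α) ≤ 1 := by
    intro α _
    change T.absF (_ * _) ≤ 1
    rw [map_mul, map_prod]
    refine mul_le_one₀ (hτ.le _) (Finset.prod_nonneg fun i _ => T.absF.nonneg _)
      (Finset.prod_le_one (fun i _ => T.absF.nonneg _) fun i _ => ?_)
    rw [map_pow]
    exact pow_le_one₀ (T.absF.nonneg _) (ht i)
  have hsum : ∑ α ∈ f.support, a α = 0 := by
    rw [← h0, aeval_def, eval₂_map, eval₂_eq']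
    rfl
  have h1 := sharp_sum_near T f.support a ha
  rw [hsum, T.toTiltPair.sharp_zero, sub_zero] at h1
  have h2 : aeval (fun i => T.sharp (t i)) f =
      ∑ α ∈ f.support, (algebraMap K C (MvPolynomial.coeff α f : OK T.toTiltPair K) -
        T.sharp (algebraMap E F (τ (MvPolynomial.coeff α f)))) * ∏ i, T.sharp (t i) ^ α i +
      ∑ α ∈ f.support, T.sharp (a α) := by
    rw [aeval_eq_sum', ← Finset.sum_add_distrib]
    refine Finset.sum_congr rfl fun α _ => ?_
    change _ = _ + T.sharp (_ * _)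
    rw [map_mul, map_prod]
    simp only [map_pow]
    ring
  rw [h2]
  refine (T.ultraK _ _).trans (max_le ?_ (h1.trans hρ0))
  refine ultra_sum' T.toTiltPair _ _ (hpp.le.trans hρ0) fun α hα => ?_
  rw [map_mul]
  calc _ ≤ ρ * 1 := mul_le_mul (hρ α hα)
        (prod_le_one' (T := T.toTiltPair) (fun i => by rw [T.abs_sharp]; exact ht i) α)
        (T.absK.nonneg _) (hpp.le.trans hρ0)
    _ = ρ := mul_one ρ

/-- The dimension of the lift of the special fibre. -/
theorem dimGE_lift [IsAlgClosed C] [IsAlgClosed F] (T : TiltPair p C F) (τ : OK T K →+* E)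
    {P : ι → MvPolynomial σ (OK T K)} {D : ι → ℕ} (hP : ∀ l, (P l).IsHomogeneous (D l)) {d : ℕ}
    (h : DimGE {x : σ → C | ∀ l, aeval x (P l) = 0} d) :
    DimGE {t : σ → F | ∀ l, aeval t (MvPolynomial.map τ (P l)) = 0} d := by
  let τ' : kk T K →+* E := Ideal.Quotient.lift (mK T K) τ fun c hc => IsLift.eq_zero (F := F) τ hc
  let _ : Algebra (kk T K) F := ((algebraMap E F).comp τ').toAlgebra
  let _ : Algebra (kk T K) (kk T C) := (kkMap T K).toAlgebra
  have h1 := dimGE_residue hP h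
  have h2 : {x : σ → kk T C | ∀ l, eval₂ (resMap T K) x (P l) = 0} =
      {x : σ → kk T C | ∀ l, aeval x (red T K σ (P l)) = 0} := by
    ext x
    have h3 : ∀ l, aeval x (red T K σ (P l)) = eval₂ (resMap T K) x (P l) := by
      intro l
      rw [aeval_def, eval₂_map]
      rfl
    simp only [Set.mem_ofPred_eq, h3]
  rw [h2] at h1
  have h4 := dimGE_transfer (k₀ := kk T K) (F := F) (L := kk T C) (fun l => red T K σ (P l)) h1
  have h5 : {t : σ → F | ∀ l, aeval t (MvPolynomial.map τ (P l)) = 0} =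
      {t : σ → F | ∀ l, aeval t (red T K σ (P l)) = 0} := by
    ext t
    have h6 : ∀ l, aeval t (red T K σ (P l)) = aeval t (MvPolynomial.map τ (P l)) := by
      intro l
      rw [aeval_def, aeval_def, eval₂_map, eval₂_map]
      rfl
    simp only [Set.mem_ofPred_eq, h6]
  rw [h5]
  exact h4

end Pool.Agent.Helper45M.DB
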