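import Pool.Agent.R388.TP.Main
set_option autoImplicit false

/-!
# The ring of integers of a perfectoid field and its residue field
-/

open MvPolynomial WittVector Pool.Agent.Y129.TA Pool.Agent.Y129.TB

set_option linter.unusedSectionVars false

namespace Pool.Agent.Helper45M.DB

variable {p : ℕ} {C F : Type} [Field C] [Field F]

/-- The ring of integers of the subfield `K` of `C`. -/
def OK (T : TiltPair p C F) (K : Type) [Field K] [Algebra K C] : Subring K where
  carrier := {x | T.absK (algebraMap K C x) ≤ 1}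
  mul_mem' {a b} ha hb := by
    change T.absK _ ≤ 1
    rw [map_mul, map_mul]
    exact mul_le_one₀ ha (T.absK.nonneg _) hb
  one_mem' := by
    change T.absK _ ≤ 1
    rw [map_one, map_one]
  add_mem' {a b} ha hb := by
    change T.absK _ ≤ 1
    rw [map_add]
    exact (T.ultraK _ _).trans (max_le ha hb)
  zero_mem' := by
    change T.absK _ ≤ 1
    rw [map_zero, map_zero]
    exact zero_le_one
  neg_mem' {a} ha := by
    change T.absK _ ≤ 1
    rw [map_neg, AbsoluteValue.map_neg]
    exact ha

section

variable (T : TiltPair p C F) (K : Type) [Field K] [Algebra K C]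

/-- The absolute value on the ring of integers. -/
def av (x : OK T K) : ℝ := T.absK (algebraMap K C (x : K))

/-- The maximal ideal of the ring of integers of `K`. -/
def mK : Ideal (OK T K) where
  carrier := {x | T.absK (algebraMap K C (x : K)) < 1}
  add_mem' {a b} ha hb := by
    change T.absK (algebraMap K C ((a : K) + b)) < 1
    rw [map_add]
    exact (T.ultraK _ _).trans_lt (max_lt ha hb)
  zero_mem' := by
    change T.absK (algebraMap K C (0 : K)) < 1
    rw [map_zero, map_zero]
    exact zero_lt_one
  smul_mem' c x hx := by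
    change T.absK (algebraMap K C ((c : K) * x)) < 1
    rw [map_mul, map_mul]
    exact mul_lt_one_of_nonneg_of_lt_one_right c.2 (T.absK.nonneg _) hx

variable {T K}

theorem mem_mK {x : OK T K} : x ∈ mK T K ↔ av T K x < 1 := Iff.rfl

theorem av_le_one (x : OK T K) : av T K x ≤ 1 := x.2

theorem av_nonneg (x : OK T K) : 0 ≤ av T K x := T.absK.nonneg _

theorem av_mul (x y : OK T K) : av T K (x * y) = av T K x * av T K y := by
  change T.absK (algebraMap K C ((x : K) * (y : K))) = _
  rw [map_mul, map_mul]
  rfl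

theorem av_zero : av T K 0 = 0 := by
  change T.absK (algebraMap K C (0 : K)) = 0
  rw [map_zero, map_zero]

theorem av_eq_zero {x : OK T K} (h : av T K x = 0) : x = 0 := by
  have h1 := T.absK.eq_zero.1 h
  exact Subtype.ext ((map_eq_zero _).1 h1)

/-- Elements of smaller absolute value are multiples. -/
theorem dvd_of_av_le {x y : OK T K} (h : av T K x ≤ av T K y) (hy : y ≠ 0) : ∃ z, x = y * z := by
  have hy0 : (y : K) ≠ 0 := fun h0 => hy (Subtype.ext h0)
  have hpos : 0 < av T K y := lt_of_le_of_ne (av_nonneg y) fun h0 => hy (av_eq_zero h0.symm)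
  refine ⟨⟨(x : K) / y, ?_⟩, Subtype.ext (mul_div_cancel₀ _ hy0).symm⟩
  change T.absK (algebraMap K C ((x : K) / y)) ≤ 1
  rw [map_div₀, map_div₀]
  exact div_le_one_of_le₀ h hpos.le

theorem isUnit_of_not_mem {x : OK T K} (h : x ∉ mK T K) : IsUnit x := by
  rw [mem_mK, not_lt] at h
  have hx : x ≠ 0 := by
    rintro rfl
    rw [av_zero] at h
    linarith
  have h1 : av T K 1 ≤ av T K x := (av_le_one 1).trans h
  obtain ⟨z, hz⟩ := dvd_of_av_le h1 hx
  exact IsUnit.of_mul_eq_one z hz.symm

theorem one_not_mem : (1 : OK T K) ∉ mK T K := by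
  intro h
  rw [mem_mK] at h
  unfold av at h
  rw [Subring.coe_one, map_one, map_one] at h
  exact lt_irrefl _ h

instance mK_isMaximal : (mK T K).IsMaximal := by
  rw [Ideal.isMaximal_iff]
  refine ⟨one_not_mem, fun J x _ hx hxJ => ?_⟩
  obtain ⟨u, hu⟩ := isUnit_of_not_mem hx
  have h1 : (1 : OK T K) = (↑u⁻¹ : OK T K) * x := by
    rw [← hu, Units.inv_mul]
  rw [h1]
  exact J.mul_mem_left _ hxJ

theorem p_mem : ((p : ℕ) : OK T K) ∈ mK T K := by
  have h1 : (((p : ℕ) : OK T K) : K) = (p : K) := by push_cast; rfl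
  change T.absK (algebraMap K C (((p : ℕ) : OK T K) : K)) < 1
  rw [h1, map_natCast]
  exact T.p_lt

end

end Pool.Agent.Helper45M.DB
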