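import Pool.Agent.Helper45M.DB.Dim
set_option autoImplicit false

/-!
# The dimension of the special fibre
-/

open MvPolynomial Pool.Agent.Y129.TA Pool.Agent.Y129.TB

set_option linter.unusedSectionVars false

namespace Pool.Agent.Helper45M.DB

variable {p : ℕ} [hp : Fact p.Prime] {C F K E : Type} [Field C] [Field F] [CharP F p] [Field K]
  [Field E] [Algebra K C] [Algebra E F] {σ ι : Type} [Fintype σ] [Fintype ι]

theorem aeval_smul' {R A : Type} [CommRing R] [CommRing A] [Algebra R A] {Q : MvPolynomial σ R}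
    {D : ℕ} (hQ : Q.IsHomogeneous D) (a : A) (t : σ → A) :
    aeval (fun i => a * t i) Q = a ^ D * aeval t Q := by
  have h1 : ∀ z : σ → A, aeval z Q = eval z (MvPolynomial.map (algebraMap R A) Q) := fun z => by
    rw [eval_map, aeval_def]
  rw [h1, h1]
  exact eval_smul_of_homogeneous (hQ.map _) a t

/-- The inclusion of the rings of integers. -/
def incO (T : TiltPair p C F) (K : Type) [Field K] [Algebra K C] : OK T K →+* OK T C :=
  ((algebraMap K C).comp (OK T K).subtype).codRestrict (OK T C) fun x => x.2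

/-- The map from the ring of integers of `K` to the residue field of `C`. -/
def resMap (T : TiltPair p C F) (K : Type) [Field K] [Algebra K C] : OK T K →+* kk T C :=
  (Ideal.Quotient.mk (mK T C)).comp (incO T K)

/-- The inclusion of the residue fields. -/
def kkMap (T : TiltPair p C F) (K : Type) [Field K] [Algebra K C] : kk T K →+* kk T C :=
  Ideal.Quotient.lift (mK T K) (resMap T K) fun _ hx => Ideal.Quotient.eq_zero_iff_mem.2 hx

variable {T : TiltPair p C F}

theorem incO_coe (x : OK T K) : ((incO T K x : OK T C) : C) = algebraMap K C x := rfl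

theorem aeval_coe (P : MvPolynomial σ (OK T K)) (ξ : σ → OK T C) :
    aeval (fun i => (ξ i : C)) P =
      ((eval ξ (MvPolynomial.map (incO T K) P) : OK T C) : C) := by
  have h1 : ((OK T C).subtype (eval ξ (MvPolynomial.map (incO T K) P))) =
      eval₂ ((OK T C).subtype.comp (incO T K)) (fun i => (ξ i : C)) P := by
    rw [eval_map]
    exact MvPolynomial.hom_eval₂ P (incO T K) (OK T C).subtype ξ
  rw [aeval_def]
  exact h1.symm

theorem dimGE_residue {P : ι → MvPolynomial σ (OK T K)} {D : ι → ℕ}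
    (hP : ∀ l, (P l).IsHomogeneous (D l)) {d : ℕ}
    (h : DimGE {x : σ → C | ∀ l, aeval x (P l) = 0} d) :
    DimGE {x : σ → kk T C | ∀ l, eval₂ (resMap T K) x (P l) = 0} d := by
  classical
  intro q hq
  choose Dq hDq hDq' using hq
  have hlift : ∀ j, ∃ q' : MvPolynomial σ (OK T C), q'.IsHomogeneous (Dq j) ∧
      MvPolynomial.map (Ideal.Quotient.mk (mK T C)) q' = q j := by
    intro j
    obtain ⟨g, hg⟩ := red_surjective (T := T) (K := C) (σ := σ) (q j)
    refine ⟨homogeneousComponent (Dq j) g, homogeneousComponent_isHomogeneous _ _, ?_⟩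
    rw [← homogeneousComponent_map]
    have hg' : MvPolynomial.map (Ideal.Quotient.mk (mK T C)) g = q j := hg
    rw [hg', homogeneousComponent_eq_self (hDq' j)]
  choose q' hq'h hq' using hlift
  obtain ⟨x, hx, hx0, hqx⟩ := h (fun j => MvPolynomial.map (OK T C).subtype (q' j)) fun j =>
    ⟨Dq j, hDq j, (hq'h j).map _⟩
  obtain ⟨i₁, hi₁⟩ := Function.ne_iff.1 hx0
  obtain ⟨i₀, -, hi₀⟩ := Finset.exists_max_image Finset.univ (fun i => T.absK (x i))
    ⟨i₁, Finset.mem_univ _⟩
  have hpos : 0 < T.absK (x i₀) :=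
    (T.absK.pos hi₁).trans_le (hi₀ i₁ (Finset.mem_univ _))
  have hne : x i₀ ≠ 0 := fun h0 => by
    rw [h0, AbsoluteValue.map_zero] at hpos
    exact lt_irrefl _ hpos
  let ξ : σ → OK T C := fun i => ⟨(x i₀)⁻¹ * x i, by
    change T.absK ((x i₀)⁻¹ * x i) ≤ 1
    rw [map_mul, map_inv₀, inv_mul_eq_div]
    exact div_le_one_of_le₀ (hi₀ i (Finset.mem_univ _)) hpos.le⟩
  have hξ : ∀ l, eval ξ (MvPolynomial.map (incO T K) (P l)) = 0 := by
    intro l
    apply Subtype.ext
    rw [← aeval_coe]
    change aeval (fun i => (x i₀)⁻¹ * x i) (P l) = 0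
    rw [aeval_smul' (hP l), hx l, mul_zero]
  have hξq : ∀ j, eval ξ (q' j) = 0 := by
    intro j
    apply Subtype.ext
    have h1 := eval_smul_of_homogeneous ((hq'h j).map (OK T C).subtype) (x i₀)⁻¹ x
    rw [hqx j, mul_zero, eval_map] at h1
    have h2 : (OK T C).subtype (eval ξ (q' j)) =
        eval₂ (OK T C).subtype (fun i => (x i₀)⁻¹ * x i) (q' j) := by
      have h3 := MvPolynomial.hom_eval₂ (q' j) (RingHom.id (OK T C)) (OK T C).subtype ξ
      exact h3
    exact h2.trans h1
  refine ⟨fun i => Ideal.Quotient.mk (mK T C) (ξ i), fun l => ?_, fun h0 => ?_, fun j => ?_⟩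
  · have h1 := congrArg (Ideal.Quotient.mk (mK T C)) (hξ l)
    rw [map_zero, eval_map, MvPolynomial.hom_eval₂] at h1
    exact h1
  · have h1 : Ideal.Quotient.mk (mK T C) (ξ i₀) = 0 := congrFun h0 i₀
    rw [Ideal.Quotient.eq_zero_iff_mem] at h1
    have h2 : T.absK ((x i₀)⁻¹ * x i₀) < 1 := h1
    rw [inv_mul_cancel₀ hne, map_one] at h2
    exact lt_irrefl _ h2
  · have h1 := congrArg (Ideal.Quotient.mk (mK T C)) (hξq j)
    have h2 : Ideal.Quotient.mk (mK T C) (eval ξ (q' j)) =
        eval (fun i => Ideal.Quotient.mk (mK T C) (ξ i))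
          (MvPolynomial.map (Ideal.Quotient.mk (mK T C)) (q' j)) := by
      rw [eval_map]
      exact MvPolynomial.hom_eval₂ (q' j) (RingHom.id (OK T C)) (Ideal.Quotient.mk (mK T C)) ξ
    rw [map_zero, h2, hq' j] at h1
    exact h1

end Pool.Agent.Helper45M.DB
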