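import Pool.Agent.Helper45M.DB.Main
set_option autoImplicit false

/-!
# Values of polynomials with integral coefficients
-/

open MvPolynomial WittVector Pool.Agent.Y129.TA Pool.Agent.Y129.TB Pool.Agent.R388.TP

set_option linter.unusedSectionVars false

namespace Pool.Agent.Helper45M.DB

variable {p : ℕ} [hp : Fact p.Prime] {C F K E : Type} [Field C] [Field F] [CharP F p] [Field K]
  [Field E] [Algebra K C] [Algebra E F] {σ ι : Type} [Fintype σ] [Fintype ι]

/-- The polynomial over `K`. -/
noncomputable abbrev toK (T : TiltPair p C F) (K : Type) [Field K] [Algebra K C] {σ : Type}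
    (f : MvPolynomial σ (OK T K)) : MvPolynomial σ K :=
  MvPolynomial.map (OK T K).subtype f

theorem aeval_toK (T : TiltPair p C F) (f : MvPolynomial σ (OK T K)) (z : σ → C) :
    aeval z (toK T K f) = aeval z f := by
  rw [aeval_def, eval₂_map, aeval_def]
  rfl

/-- Values of a polynomial with integral coefficients at points which are close to each other. -/
theorem aeval_sub_le (T : TiltPair p C F) (f : MvPolynomial σ (OK T K)) {u v : σ → C}
    (hu : ∀ i, T.absK (u i) ≤ 1) (hv : ∀ i, T.absK (v i) ≤ 1) {δ : ℝ} (hδ : 0 ≤ δ)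
    (huv : ∀ i, T.absK (u i - v i) ≤ δ) : T.absK (aeval u f - aeval v f) ≤ δ := by
  classical
  induction f using MvPolynomial.induction_on with
  | C c => rw [aeval_C, aeval_C, sub_self, AbsoluteValue.map_zero]; exact hδ
  | add f g hf hg =>
    have h1 : aeval u (f + g) - aeval v (f + g) =
        (aeval u f - aeval v f) + (aeval u g - aeval v g) := by
      rw [map_add, map_add]
      ring
    rw [h1]
    exact (T.ultraK _ _).trans (max_le hf hg)
  | mul_X f i hf =>
    have h1 : aeval u (f * X i) - aeval v (f * X i) =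
        (aeval u f - aeval v f) * u i + aeval v f * (u i - v i) := by
      rw [map_mul, map_mul, aeval_X, aeval_X]
      ring
    rw [h1]
    refine (T.ultraK _ _).trans (max_le ?_ ?_)
    · rw [map_mul]
      calc _ ≤ δ * 1 := mul_le_mul hf (hu i) (T.absK.nonneg _) hδ
        _ = δ := mul_one δ
    · rw [map_mul]
      calc _ ≤ 1 * δ := mul_le_mul (aeval_le_one f hv) (huv i) (T.absK.nonneg _) zero_le_one
        _ = δ := one_mul δ

/-- An integral form of degree `D` has values of absolute value at most `η ^ D` in the ball of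
radius `η`. -/
theorem aeval_le_pow (T : TiltPair p C F) {f : MvPolynomial σ (OK T K)} {D : ℕ}
    (hf : f.IsHomogeneous D) {z : σ → C} {η : ℝ} (hη : 0 ≤ η) (hz : ∀ i, T.absK (z i) ≤ η) :
    T.absK (aeval z f) ≤ η ^ D := by
  classical
  rw [aeval_eq_sum']
  refine ultra_sum' T _ _ (pow_nonneg hη D) fun α hα => ?_
  rw [map_mul, map_prod]
  have h1 : ∏ i, T.absK (z i ^ α i) ≤ ∏ i, η ^ α i := by
    refine Finset.prod_le_prod (fun i _ => T.absK.nonneg _) fun i _ => ?_
    rw [map_pow]
    exact pow_le_pow_left₀ (T.absK.nonneg _) (hz i) _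
  rw [Finset.prod_pow_eq_pow_sum, sum_of_homogeneous hf hα] at h1
  calc _ ≤ 1 * η ^ D := mul_le_mul (av_le_one _) h1
        (Finset.prod_nonneg fun i _ => T.absK.nonneg _) zero_le_one
    _ = η ^ D := one_mul _

end Pool.Agent.Helper45M.DB
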