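import Pool.Agent.Helper45M.DB.Iter
set_option autoImplicit false

/-!
# The uniform contraction
-/

open MvPolynomial WittVector Pool.Agent.Y129.TA Pool.Agent.Y129.TB

set_option linter.unusedSectionVars false

namespace Pool.Agent.Helper45M.DB

variable {p : ℕ} [hp : Fact p.Prime] {C F K E : Type} [Field C] [Field F] [CharP F p] [Field K]
  [Field E] [Algebra K C] [Algebra E F]

instance valuationRing_OK (T : TiltPair p C F) : ValuationRing (OK T K) := by
  refine { cond' := fun a b => ?_ }
  by_cases ha : a = 0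
  · exact ⟨0, Or.inr (by rw [ha, mul_zero])⟩
  by_cases hb : b = 0
  · exact ⟨0, Or.inl (by rw [hb, mul_zero])⟩
  rcases le_total (av T K a) (av T K b) with h | h
  · obtain ⟨z, hz⟩ := dvd_of_av_le h hb
    exact ⟨z, Or.inr hz.symm⟩
  · obtain ⟨z, hz⟩ := dvd_of_av_le h ha
    exact ⟨z, Or.inl hz.symm⟩

/-- The `p`-th roots exist modulo `p`. -/
theorem exists_root_mod [IsAlgClosed F] (T : Tilting p C F) (B : BaseField T K E)
    (c : OK T.toTiltPair K) : ∃ d : OK T.toTiltPair K, av T.toTiltPair K (d ^ p - c) ≤ T.absK p := by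
  obtain ⟨x, hx, hxc⟩ := B.θ_surj c c.2
  obtain ⟨e, he⟩ := hx 0
  obtain ⟨b, hb⟩ := B.perf e
  have hb1 : (algebraMap E F b) ^ p = ((x.coeff 0 : T.O) : F) := by
    rw [← map_pow, hb, he]
  have hb2 : T.absF (algebraMap E F b) ≤ 1 := by
    by_contra h
    push Not at h
    have h2 : 1 < T.absF (algebraMap E F b) ^ p := one_lt_pow₀ h hp.out.ne_zero
    rw [← map_pow, hb1] at h2
    exact absurd (x.coeff 0).2 (not_le.2 h2)
  let b' : T.O := ⟨algebraMap E F b, hb2⟩
  obtain ⟨y, hy⟩ := B.θ_mem (teichmuller p b') (by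
    intro n
    rcases Nat.eq_zero_or_pos n with rfl | hn
    · exact ⟨b, by rw [teichmuller_coeff_zero]⟩
    · exact ⟨0, by rw [teichmuller_coeff_pos p b' n hn, map_zero]; rfl⟩)
  have hy1 : T.θ (teichmuller p b') = algebraMap K C y := hy
  rw [T.θ_teich] at hy1
  have hy2 : T.absK (algebraMap K C y) ≤ 1 := by
    rw [← hy1, T.abs_sharp]
    exact hb2
  refine ⟨⟨y, hy2⟩, ?_⟩
  change T.absK (algebraMap K C (y ^ p - (c : K))) ≤ _
  have h1 : algebraMap K C (y ^ p - (c : K)) = -(T.θ x - T.sharp (x.coeff 0 : F)) := by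
    have h2 : T.θ x = algebraMap K C c := hxc
    rw [map_sub, map_pow, ← hy1, ← map_pow, h2]
    change T.sharp ((algebraMap E F b) ^ p) - _ = _
    rw [hb1]
    ring
  rw [h1, AbsoluteValue.map_neg]
  exact Tilting.abs_sub_le T x

/-- A polynomial with vanishing derivatives over a ring of characteristic `p` where the `p`-th roots
exist is a `p`-th power. -/
theorem exists_pow' {k : Type} [CommRing k] [CharP k p] (hk : ∀ c : k, ∃ d, d ^ p = c) {σ : Type}
    (f : MvPolynomial σ k) (hf : ∀ j, pderiv j f = 0) : ∃ g, g ^ p = f := by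
  classical
  choose r hr using hk
  have hunit : ∀ n : ℕ, ¬ p ∣ n → IsUnit ((n : ℕ) : k) := by
    intro n hn
    have h1 : ((n : ℕ) : ZMod p) ≠ 0 := by
      rw [Ne, ZMod.natCast_eq_zero_iff]
      exact hn
    have h2 := (isUnit_iff_ne_zero.2 h1).map (ZMod.castHom (dvd_refl p) k)
    rwa [map_natCast] at h2
  have hdvd : ∀ α ∈ f.support, ∀ j, p ∣ α j := by
    intro α hα j
    rcases Nat.eq_zero_or_pos (α j) with h0 | h0
    · rw [h0]
      exact dvd_zero p
    · by_contra hnd
      have h1 := congrArg (MvPolynomial.coeff (α - Finsupp.single j 1)) (hf j)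
      rw [coeff_pderiv, MvPolynomial.coeff_zero] at h1
      have h2 : α - Finsupp.single j 1 + Finsupp.single j 1 = α := by
        ext i
        rw [Finsupp.add_apply, Finsupp.tsub_apply]
        by_cases hij : j = i
        · subst hij
          rw [Finsupp.single_eq_same]
          omega
        · rw [Finsupp.single_eq_of_ne (Ne.symm hij)]
          omega
      rw [h2, Finsupp.tsub_apply, Finsupp.single_eq_same] at h1
      have h3 : (((α j - 1 : ℕ) : k) + 1) = ((α j : ℕ) : k) := by
        rw [← Nat.cast_succ]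
        congr 1
        omega
      rw [h3] at h1
      exact mem_support_iff.1 hα ((hunit _ hnd).mul_left_eq_zero.1 h1)
  refine ⟨∑ α ∈ f.support, monomial (α.mapRange (fun a => a / p) (Nat.zero_div p))
    (r (MvPolynomial.coeff α f)), ?_⟩
  rw [sum_pow_char]
  conv_rhs => rw [← support_sum_monomial_coeff f]
  refine Finset.sum_congr rfl fun α hα => ?_
  have hα' : p • α.mapRange (fun a => a / p) (Nat.zero_div p) = α := by
    ext i
    rw [Finsupp.smul_apply, Finsupp.mapRange_apply, smul_eq_mul]
    exact Nat.mul_div_cancel' (hdvd α hα i)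
  rw [monomial_pow, hr, hα']

section

variable {T : TiltPair p C F} {σ : Type}

/-- The truncation of a polynomial. -/
noncomputable def trunc (N : ℕ) (f : MvPolynomial σ (OK T K)) : MvPolynomial σ (OK T K) :=
  ∑ k ∈ Finset.range (N + 1), homogeneousComponent k f

theorem trunc_add (N : ℕ) (f g : MvPolynomial σ (OK T K)) :
    trunc N (f + g) = trunc N f + trunc N g := by
  unfold trunc
  rw [← Finset.sum_add_distrib]
  exact Finset.sum_congr rfl fun k _ => map_add _ _ _

theorem trunc_eq {N : ℕ} {f : MvPolynomial σ (OK T K)} (hf : f.totalDegree ≤ N) :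
    trunc N f = f := by
  classical
  unfold trunc
  conv_rhs => rw [← sum_homogeneousComponent f]
  refine (Finset.sum_subset (fun k hk => ?_) fun k _ hk => ?_).symm
  · rw [Finset.mem_range] at hk ⊢
    omega
  · rw [Finset.mem_range] at hk
    exact homogeneousComponent_eq_zero _ _ (by omega)

theorem coeff_trunc (N : ℕ) (f : MvPolynomial σ (OK T K)) (α : σ →₀ ℕ) :
    MvPolynomial.coeff α (trunc N f) = if α.degree ≤ N then MvPolynomial.coeff α f else 0 := by
  classical
  unfold trunc
  rw [coeff_sum]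
  simp only [coeff_homogeneousComponent]
  rw [Finset.sum_ite_eq]
  simp only [Finset.mem_range, Nat.lt_succ_iff]

theorem mem_smul_top {R M : Type} [CommRing R] [AddCommGroup M] [Module R M] {ι : Type}
    (b : Module.Basis ι R M) {I : Ideal R} {x : M} (hx : x ∈ I • (⊤ : Submodule R M)) (j : ι) :
    b.repr x j ∈ I := by
  refine Submodule.smul_induction_on hx (fun r hr n _ => ?_) fun x y hx hy => ?_
  · rw [map_smul, Finsupp.smul_apply, smul_eq_mul]
    exact I.mul_mem_right _ hr
  · rw [map_add, Finsupp.add_apply]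
    exact I.add_mem hx hy

/-- The content: a polynomial is, modulo the ideal, a multiple of a polynomial the reduction of which
is not in the reduction of the ideal. -/
theorem content [Finite σ] (I : Ideal (MvPolynomial σ (OK T K)))
    (hhom : ∀ f ∈ I, ∀ k, homogeneousComponent k f ∈ I)
    (hflat : ∀ (b : OK T K) (s : MvPolynomial σ (OK T K)), b ≠ 0 → MvPolynomial.C b * s ∈ I → s ∈ I)
    (g : MvPolynomial σ (OK T K)) : ∃ i ∈ I, ∃ c w, g = i + MvPolynomial.C c * w ∧
      (c = 0 ∨ red T K σ w ∉ I.map (red T K σ)) := by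
  classical
  set N := g.totalDegree with hN
  let mk : MvPolynomial σ (OK T K) →ₗ[OK T K] (MvPolynomial σ (OK T K) ⧸ I) :=
    (Ideal.Quotient.mkₐ (OK T K) I).toLinearMap
  have hmk0 : ∀ s, mk s = 0 ↔ s ∈ I := fun s => Ideal.Quotient.eq_zero_iff_mem
  let V : Submodule (OK T K) (MvPolynomial σ (OK T K)) := restrictTotalDegree σ (OK T K) N
  let M : Submodule (OK T K) (MvPolynomial σ (OK T K) ⧸ I) := V.map mk
  have hVfin : Module.Finite (OK T K) V := inferInstance
  have hMfin : Module.Finite (OK T K) M := Module.Finite.map V mk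
  have htf : ∀ (b : OK T K) (x : MvPolynomial σ (OK T K) ⧸ I), b ≠ 0 → b • x = 0 → x = 0 := by
    intro b x hb hx
    obtain ⟨s, rfl⟩ := Ideal.Quotient.mk_surjective x
    have h1 : mk (MvPolynomial.C b * s) = 0 := by
      rw [C_mul', map_smul]
      exact hx
    exact (hmk0 s).2 (hflat b s hb ((hmk0 _).1 h1))
  have htors : Submodule.torsion (OK T K) M = ⊥ := by
    rw [eq_bot_iff]
    rintro ⟨x, hxM⟩ ⟨⟨b, hb⟩, hbx⟩
    have h1 : b • x = 0 := congrArg Subtype.val hbx
    rw [Submodule.mem_bot]
    exact Subtype.ext (htf b x (nonZeroDivisors.ne_zero hb) h1)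
  have hflatM : Module.Flat (OK T K) M := Module.Flat.flat_iff_torsion_eq_bot_of_isBezout.2 htors
  have hfree : Module.Free (OK T K) M := Module.free_of_flat_of_isLocalRing
  let b := Module.Free.chooseBasis (OK T K) M
  have hgV : g ∈ V := (mem_restrictTotalDegree _ _ _).2 le_rfl
  let G : M := ⟨mk g, Submodule.mem_map_of_mem hgV⟩
  by_cases hG : G = 0
  · refine ⟨g, (hmk0 g).1 (congrArg Subtype.val hG), 0, 0, by rw [mul_zero, add_zero],
      Or.inl rfl⟩
  have hsupp : (b.repr G).support.Nonempty := by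
    rw [Finset.nonempty_iff_ne_empty]
    intro h0
    apply hG
    have h1 : b.repr G = 0 := Finsupp.support_eq_empty.1 h0
    exact b.repr.map_eq_zero_iff.1 h1
  obtain ⟨j₀, hj₀, hmax⟩ := Finset.exists_max_image _ (fun j => av T K (b.repr G j)) hsupp
  set c := b.repr G j₀ with hc
  have hc0 : c ≠ 0 := Finsupp.mem_support_iff.1 hj₀
  have hz : ∀ j, ∃ z, b.repr G j = c * z ∧ (j = j₀ → z = 1) := by
    intro j
    by_cases hj : j = j₀
    · exact ⟨1, by rw [hj, mul_one], fun _ => rfl⟩
    · by_cases hjs : j ∈ (b.repr G).support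
      · obtain ⟨z, hz⟩ := dvd_of_av_le (hmax j hjs) hc0
        exact ⟨z, hz, fun h => absurd h hj⟩
      · exact ⟨0, by rw [Finsupp.notMem_support_iff.1 hjs, mul_zero], fun h => absurd h hj⟩
  choose z hz hz1 using hz
  let W : M := ∑ j, z j • b j
  have hGW : G = c • W := by
    rw [Finset.smul_sum, ← b.sum_repr G]
    refine Finset.sum_congr rfl fun j _ => ?_
    rw [hz j, mul_smul]
  obtain ⟨w, hwV, hwW⟩ := W.2
  have hwdeg : w.totalDegree ≤ N := (mem_restrictTotalDegree _ _ _).1 hwV
  refine ⟨g - MvPolynomial.C c * w, ?_, c, w, by ring, Or.inr fun hw => ?_⟩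
  · rw [← hmk0, map_sub, C_mul', map_smul, hwW]
    have h1 : mk g = c • (W : MvPolynomial σ (OK T K) ⧸ I) := congrArg Subtype.val hGW
    rw [h1, sub_self]
  · obtain ⟨i', hi', hi'w⟩ := (Ideal.mem_map_iff_of_surjective _ red_surjective).1 hw
    set u := w - i' with hu
    have hured : red T K σ u = 0 := by rw [hu, map_sub, hi'w, sub_self]
    have hucoeff : ∀ α, MvPolynomial.coeff α u ∈ mK T K := fun α => by
      rw [← Ideal.Quotient.eq_zero_iff_mem, ← coeff_map, hured, MvPolynomial.coeff_zero]
    have hwsum : w = trunc N i' + trunc N u := by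
      rw [← trunc_add, hu]
      have h1 : i' + (w - i') = w := by ring
      rw [h1, trunc_eq hwdeg]
    have htI : trunc N i' ∈ I := Ideal.sum_mem _ fun k _ => hhom i' hi' k
    have hWmem : W ∈ (mK T K) • (⊤ : Submodule (OK T K) M) := by
      have h1 : trunc N u = ∑ α ∈ (trunc N u).support,
          MvPolynomial.coeff α (trunc N u) • monomial α (1 : OK T K) := by
        conv_lhs => rw [← support_sum_monomial_coeff (trunc N u)]
        refine Finset.sum_congr rfl fun α _ => ?_
        rw [smul_monomial, smul_eq_mul, mul_one]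
      have hmon : ∀ α ∈ (trunc N u).support, monomial α (1 : OK T K) ∈ V := by
        intro α hα
        have h2 := mem_support_iff.1 hα
        rw [coeff_trunc] at h2
        have h3 : α.degree ≤ N := by
          by_contra hlt
          rw [if_neg hlt] at h2
          exact h2 rfl
        refine (mem_restrictTotalDegree _ _ _).2 ?_
        refine (totalDegree_monomial_le _ _).trans ?_
        exact h3
      have h4 : W = ∑ α ∈ (trunc N u).support.attach,
          MvPolynomial.coeff α.1 (trunc N u) •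
            (⟨mk (monomial α.1 (1 : OK T K)), Submodule.mem_map_of_mem (hmon α.1 α.2)⟩ : M) := by
        apply Subtype.ext
        rw [← hwW, hwsum, map_add, (hmk0 _).2 htI, zero_add]
        conv_lhs => rw [h1]
        rw [map_sum, AddSubmonoidClass.coe_finsetSum, ← Finset.sum_attach]
        refine Finset.sum_congr rfl fun α _ => ?_
        rw [map_smul]
        rfl
      rw [h4]
      refine Submodule.sum_mem _ fun α _ => ?_
      refine Submodule.smul_mem_smul ?_ Submodule.mem_top
      rw [coeff_trunc]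
      split_ifs
      · exact hucoeff _
      · exact (mK T K).zero_mem
    have h5 := mem_smul_top b hWmem j₀
    have h6 : b.repr W j₀ = 1 := by
      rw [b.repr_sum_self, hz1 j₀ rfl]
    rw [h6] at h5
    exact one_not_mem h5

/-- The uniform contraction. -/
theorem contraction_unif [Finite σ] {a : OK T K} (ha : a ∈ mK T K)
    (hap : av T K ((p : ℕ) : OK T K) ≤ av T K a)
    (hroot : ∀ c : OK T K, ∃ d : OK T K, av T K (d ^ p - c) ≤ av T K a)
    (I : Ideal (MvPolynomial σ (OK T K)))
    (hhom : ∀ f ∈ I, ∀ k, homogeneousComponent k f ∈ I)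
    (hflat : ∀ (b : OK T K) (s : MvPolynomial σ (OK T K)), b ≠ 0 → MvPolynomial.C b * s ∈ I → s ∈ I)
    (hred : ∀ g : MvPolynomial σ (kk T K), g ^ p ∈ I.map (red T K σ) → g ∈ I.map (red T K σ))
    {f : MvPolynomial σ (OK T K)} (hf : f ∈ I) (hd : ∀ j, MvPolynomial.C a ∣ pderiv j f) :
    ∃ Q ∈ I, ∃ s ∈ I, f = Q ^ p + MvPolynomial.C a * s := by
  classical
  have hp0 : ((p : ℕ) : OK T K) ≠ 0 := by
    intro h0
    have h2 : (((p : ℕ) : OK T K) : K) = (p : K) := by push_cast; rfl
    rw [h0] at h2
    have h1 := congrArg (algebraMap K C) h2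
    rw [map_natCast] at h1
    exact T.p_ne (by rw [← h1]; exact map_zero _)
  have ha0 : a ≠ 0 := by
    rintro rfl
    rw [av_zero] at hap
    exact hp0 (av_eq_zero (le_antisymm hap (av_nonneg _)))
  obtain ⟨a', ha'⟩ := dvd_of_av_le hap ha0
  let J : Ideal (OK T K) := Ideal.span {a}
  have hJm : J ≤ mK T K := by
    rw [Ideal.span_singleton_le_iff_mem]
    exact ha
  have hnt : Nontrivial (OK T K ⧸ J) := by
    refine Ideal.Quotient.nontrivial_iff.2 fun h => ?_
    exact one_not_mem (hJm (h ▸ Submodule.mem_top))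
  have hchar : CharP (OK T K ⧸ J) p := by
    rw [CharP.charP_iff_prime_eq_zero hp.out]
    have h1 : ((p : ℕ) : OK T K ⧸ J) = Ideal.Quotient.mk J ((p : ℕ) : OK T K) := by
      rw [map_natCast]
    rw [h1, Ideal.Quotient.eq_zero_iff_mem, ha']
    exact J.mul_mem_right _ (Ideal.mem_span_singleton_self a)
  let φ : MvPolynomial σ (OK T K) →+* MvPolynomial σ (OK T K ⧸ J) :=
    MvPolynomial.map (Ideal.Quotient.mk J)
  have hφ : Function.Surjective φ := MvPolynomial.map_surjective _ Ideal.Quotient.mk_surjective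
  have hφ0 : ∀ h : MvPolynomial σ (OK T K), φ h = 0 → ∃ s, h = MvPolynomial.C a * s := by
    intro h hh
    have h1 : ∀ α, ∃ z, MvPolynomial.coeff α h = a * z ∧ (α ∉ h.support → z = 0) := by
      intro α
      by_cases hα : α ∈ h.support
      · have h2 : MvPolynomial.coeff α h ∈ J := by
          rw [← Ideal.Quotient.eq_zero_iff_mem, ← coeff_map, hh, MvPolynomial.coeff_zero]
        obtain ⟨z, hz⟩ := Ideal.mem_span_singleton.1 h2
        exact ⟨z, hz, fun h => absurd hα h⟩
      · exact ⟨0, by rw [notMem_support_iff.1 hα, mul_zero], fun _ => rfl⟩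
    choose z hz _ using h1
    refine ⟨∑ α ∈ h.support, monomial α (z α), ?_⟩
    rw [Finset.mul_sum]
    conv_lhs => rw [← support_sum_monomial_coeff h]
    refine Finset.sum_congr rfl fun α _ => ?_
    rw [C_mul_monomial, ← hz α]
  obtain ⟨g', hg'⟩ := exists_pow' (k := OK T K ⧸ J) (fun c => by
    obtain ⟨c, rfl⟩ := Ideal.Quotient.mk_surjective c
    obtain ⟨d, hd⟩ := hroot c
    refine ⟨Ideal.Quotient.mk J d, ?_⟩
    rw [← map_pow, Ideal.Quotient.eq]
    obtain ⟨z, hz⟩ := dvd_of_av_le hd ha0
    rw [hz]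
    exact J.mul_mem_right _ (Ideal.mem_span_singleton_self a)) (φ f) (fun j => by
    have h1 : pderiv j (φ f) = φ (pderiv j f) := pderiv_map
    rw [h1]
    obtain ⟨s, hs⟩ := hd j
    rw [hs, map_mul]
    have h2 : φ (MvPolynomial.C a) = 0 := by
      change MvPolynomial.map (Ideal.Quotient.mk J) (MvPolynomial.C a) = 0
      rw [map_C, Ideal.Quotient.eq_zero_iff_mem.2 (Ideal.mem_span_singleton_self a), map_zero]
    rw [h2, zero_mul])
  obtain ⟨g, rfl⟩ := hφ g'
  obtain ⟨s₁, hs₁⟩ := hφ0 (f - g ^ p) (by rw [map_sub, map_pow, hg', sub_self])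
  obtain ⟨i, hi, c, w, hg, hcw⟩ := content I hhom hflat g
  -- `c ^ p` is a multiple of `a`
  have hpowI : ∀ x y : MvPolynomial σ (OK T K), x ∈ I → (x + y) ^ p - y ^ p ∈ I := by
    intro x y hx
    rw [← Ideal.Quotient.eq_zero_iff_mem, map_sub, map_pow, map_pow, map_add,
      Ideal.Quotient.eq_zero_iff_mem.2 hx, zero_add, sub_self]
  have hcp : ∃ c', c ^ p = a * c' := by
    by_contra hno
    have hlt : av T K a < av T K (c ^ p) := by
      by_contra hle
      exact hno (dvd_of_av_le (not_lt.1 hle) ha0)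
    have hcp0 : c ^ p ≠ 0 := by
      intro h0
      rw [h0, av_zero] at hlt
      exact absurd hlt (not_lt.2 (av_nonneg _))
    obtain ⟨a'', ha''⟩ := dvd_of_av_le hlt.le hcp0
    have ha''m : a'' ∈ mK T K := by
      rw [mem_mK]
      rw [ha'', av_mul] at hlt
      have hpos : 0 < av T K (c ^ p) :=
        lt_of_le_of_ne (av_nonneg _) fun h0 => hcp0 (av_eq_zero h0.symm)
      by_contra hge
      push Not at hge
      exact absurd hlt (not_lt.2 (le_mul_of_one_le_right hpos.le hge))
    have h1 : MvPolynomial.C (c ^ p) * (w ^ p + MvPolynomial.C a'' * s₁) ∈ I := by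
      have h2 := hpowI i (MvPolynomial.C c * w) hi
      rw [← hg] at h2
      have h3 : MvPolynomial.C (c ^ p) * (w ^ p + MvPolynomial.C a'' * s₁) =
          f - (g ^ p - (MvPolynomial.C c * w) ^ p) := by
        have h4 : g ^ p = f - MvPolynomial.C a * s₁ := by rw [← hs₁]; ring
        rw [h4, ha'', mul_pow, map_mul, map_pow]
        ring
      rw [h3]
      exact I.sub_mem hf h2
    have h5 := hflat _ _ hcp0 h1
    rcases hcw with h0 | h0
    · rw [h0, zero_pow hp.out.ne_zero] at hcp0
      exact hcp0 rfl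
    · apply h0
      apply hred
      have h6 := Ideal.mem_map_of_mem (red T K σ) h5
      rw [map_add, map_pow, map_mul] at h6
      have h7 : red T K σ (MvPolynomial.C a'') = 0 := by
        change MvPolynomial.map (Ideal.Quotient.mk (mK T K)) (MvPolynomial.C a'') = 0
        rw [map_C, Ideal.Quotient.eq_zero_iff_mem.2 ha''m, map_zero]
      rwa [h7, zero_mul, add_zero] at h6
  obtain ⟨c', hc'⟩ := hcp
  -- `f - i ^ p` is a multiple of `a`
  obtain ⟨s, hs⟩ := hφ0 (f - i ^ p) (by
    have h1 : φ f = φ g ^ p := hg'.symm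
    have h2 : φ g ^ p = φ i ^ p := by
      rw [hg, map_add, map_mul, add_pow_char]
      have h3 : (φ (MvPolynomial.C c) * φ w) ^ p = 0 := by
        rw [mul_pow, ← map_pow, ← map_pow, hc']
        change MvPolynomial.map (Ideal.Quotient.mk J) (MvPolynomial.C (a * c')) * _ = 0
        rw [map_C, Ideal.Quotient.eq_zero_iff_mem.2
          (J.mul_mem_right _ (Ideal.mem_span_singleton_self a)), map_zero, zero_mul]
      rw [h3, add_zero]
    rw [map_sub, map_pow, h1, h2, sub_self])
  refine ⟨i, hi, s, ?_, by rw [← hs]; ring⟩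
  refine hflat a s ha0 ?_
  rw [← hs]
  exact I.sub_mem hf (Ideal.pow_mem_of_mem _ hi p hp.out.pos)

end

end Pool.Agent.Helper45M.DB
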