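import Pool.Agent.Helper45M.DB.WMap
import Pool.Agent.Helper45M.DB.Unif
set_option autoImplicit false

/-!
# Towers of flat models with inseparable transition maps
-/

open MvPolynomial WittVector Pool.Agent.Y129.TA Pool.Agent.Y129.TB Pool.Agent.R388.TP

set_option linter.unusedSectionVars false

namespace Pool.Agent.Helper45M.DB

variable {p : ℕ} [hp : Fact p.Prime] {C F K E : Type} [Field C] [Field F] [CharP F p] [Field K]
  [Field E] [Algebra K C] [Algebra E F]

theorem dvd_of_coeff {T : TiltPair p C F} {σ : Type} {a : OK T K} (ha : a ≠ 0)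
    (h : MvPolynomial σ (OK T K)) (hc : ∀ α, av T K (MvPolynomial.coeff α h) ≤ av T K a) :
    MvPolynomial.C a ∣ h := by
  choose z hz using fun α => dvd_of_av_le (hc α) ha
  refine ⟨∑ α ∈ h.support, monomial α (z α), ?_⟩
  rw [Finset.mul_sum]
  conv_lhs => rw [← support_sum_monomial_coeff h]
  refine Finset.sum_congr rfl fun α _ => ?_
  rw [C_mul_monomial, ← hz α]

theorem dvd_pderiv_comp {T : TiltPair p C F} {σ σ' : Type} {a : OK T K}
    {Φ : σ → MvPolynomial σ' (OK T K)} (h : ∀ i j, MvPolynomial.C a ∣ pderiv j (Φ i))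
    (f : MvPolynomial σ (OK T K)) (j : σ') : MvPolynomial.C a ∣ pderiv j (aeval Φ f) := by
  induction f using MvPolynomial.induction_on with
  | C c =>
    rw [aeval_C]
    change _ ∣ pderiv j (MvPolynomial.C c)
    rw [pderiv_C]
    exact dvd_zero _
  | add f g hf hg =>
    rw [map_add, map_add]
    exact dvd_add hf hg
  | mul_X f i hf =>
    rw [map_mul, aeval_X, pderiv_mul]
    exact dvd_add (dvd_mul_of_dvd_left hf _) (dvd_mul_of_dvd_right (h i j) _)

theorem av_p (T : TiltPair p C F) : av T K ((p : ℕ) : OK T K) = T.absK p := by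
  have h1 : (((p : ℕ) : OK T K) : K) = (p : K) := by push_cast; rfl
  change T.absK (algebraMap K C (((p : ℕ) : OK T K) : K)) = _
  rw [h1, map_natCast]

/-- There are elements the absolute values of which are less than `1` and close to `1`. -/
theorem exists_near_one [IsAlgClosed F] (T : Tilting p C F) (B : BaseField T K E) {β : ℝ}
    (hβ : β < 1) : ∃ a : OK T.toTiltPair K, a ∈ mK T.toTiltPair K ∧ T.absK p ≤ av T.toTiltPair K a ∧
      β ≤ av T.toTiltPair K a := by
  obtain ⟨ϖ, hϖ⟩ := B.val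
  have hpp : 0 < T.absK p := T.absK.pos T.p_ne
  -- the roots of `ϖ`
  have hroots : ∀ k : ℕ, ∃ b : E, T.absF (algebraMap E F b) ^ p ^ k = T.absK p := by
    intro k
    induction k with
    | zero => exact ⟨ϖ, by rw [pow_zero, pow_one]; exact hϖ⟩
    | succ k ih =>
      obtain ⟨b, hb⟩ := ih
      obtain ⟨c, hc⟩ := B.perf b
      refine ⟨c, ?_⟩
      have h1 : T.absF (algebraMap E F c) ^ p = T.absF (algebraMap E F b) := by
        rw [← map_pow, ← map_pow, hc]
      rw [pow_succ', pow_mul, h1]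
      exact hb
  obtain ⟨k, hk⟩ : ∃ k : ℕ, (max β 0) ^ p ^ k < T.absK p := by
    obtain ⟨N, hN⟩ := exists_pow_lt_of_lt_one hpp (max_lt hβ one_pos)
    refine ⟨N, lt_of_le_of_lt ?_ hN⟩
    exact pow_le_pow_of_le_one (le_max_right _ _) (max_le hβ.le zero_le_one)
      (Nat.lt_pow_self hp.out.one_lt).le
  obtain ⟨b, hb⟩ := hroots k
  have hpk : p ^ k ≠ 0 := pow_ne_zero _ hp.out.ne_zero
  have hb1 : T.absF (algebraMap E F b) < 1 := by
    by_contra h
    push Not at h
    have h2 : 1 ≤ T.absF (algebraMap E F b) ^ p ^ k := one_le_pow₀ h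
    rw [hb] at h2
    exact absurd T.p_lt (not_lt.2 h2)
  have hbp : T.absK p ≤ T.absF (algebraMap E F b) := by
    rw [← hb]
    exact pow_le_of_le_one (T.absF.nonneg _) hb1.le hpk
  have hbβ : β ≤ T.absF (algebraMap E F b) := by
    by_contra h
    push Not at h
    have h2 : T.absF (algebraMap E F b) ^ p ^ k ≤ (max β 0) ^ p ^ k :=
      pow_le_pow_left₀ (T.absF.nonneg _) (h.le.trans (le_max_left _ _)) _
    rw [hb] at h2
    exact absurd hk (not_lt.2 h2)
  let b' : T.O := ⟨algebraMap E F b, hb1.le⟩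
  obtain ⟨y, hy⟩ := B.θ_mem (teichmuller p b') (by
    intro n
    rcases Nat.eq_zero_or_pos n with rfl | hn
    · exact ⟨b, by rw [teichmuller_coeff_zero]⟩
    · exact ⟨0, by rw [teichmuller_coeff_pos p b' n hn, map_zero]; rfl⟩)
  have hy1 : T.θ (teichmuller p b') = algebraMap K C y := hy
  rw [T.θ_teich] at hy1
  have hy2 : T.absK (algebraMap K C y) = T.absF (algebraMap E F b) := by
    rw [← hy1, T.abs_sharp]
  refine ⟨⟨y, hy2.trans_le hb1.le⟩, ?_, ?_, ?_⟩
  · change T.absK (algebraMap K C y) < 1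
    rw [hy2]
    exact hb1
  · change _ ≤ T.absK (algebraMap K C y)
    rw [hy2]
    exact hbp
  · change _ ≤ T.absK (algebraMap K C y)
    rw [hy2]
    exact hbβ

/-- The data of a contracting map. -/
structure Step (T : TiltPair p C F) (K : Type) [Field K] [Algebra K C] {σ σ' ι ι' : Type}
    (a : OK T K) (P : ι → MvPolynomial σ (OK T K)) (R : ι' → MvPolynomial σ' (OK T K))
    (Φ : σ → MvPolynomial σ' (OK T K)) : Prop where
  con : ∀ l, ∃ Q ∈ Ideal.span (Set.range R), ∃ s ∈ Ideal.span (Set.range R),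
    aeval Φ (P l) = Q ^ p + MvPolynomial.C a * s
  nz : ∀ i, ∃ N, ∃ x ∈ Ideal.span (Set.range R), ∃ b ∈ Ideal.span (Set.range Φ), ∃ c,
    red T K σ' c = 0 ∧ (X i : MvPolynomial σ' (OK T K)) ^ N = x + b + c

theorem aeval_aeval' {T : TiltPair p C F} {σ σ' : Type} (Ψ : σ → MvPolynomial σ' (OK T K))
    (f : MvPolynomial σ (OK T K)) (z : σ' → C) :
    aeval z (aeval Ψ f) = aeval (fun j => aeval z (Ψ j)) f := by
  have h : ((aeval z : MvPolynomial σ' (OK T K) →ₐ[OK T K] C).comp (aeval Ψ)) =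
      aeval (fun j => aeval z (Ψ j)) := by
    ext i
    simp
  exact congrArg (fun ψ : MvPolynomial σ (OK T K) →ₐ[OK T K] C => ψ f) h

section

variable {T : TiltPair p C F} {σ σ' ι ι' : Type} [Fintype σ] [Fintype σ'] [Fintype ι] [Fintype ι']

theorem Step.norm {a : OK T K} {P : ι → MvPolynomial σ (OK T K)}
    {R : ι' → MvPolynomial σ' (OK T K)} {Φ : σ → MvPolynomial σ' (OK T K)}
    (h : Step T K a P R Φ) {z : σ' → C} (hz : ∀ i, T.absK (z i) ≤ 1) {i₀ : σ'}
    (hz0 : T.absK (z i₀) = 1) {τ : ℝ} (hτ : 0 ≤ τ) (hτ1 : τ < 1)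
    (hP : ∀ l, T.absK (aeval z (R l)) ≤ τ) : ∃ i, T.absK (aeval z (Φ i)) = 1 := by
  classical
  by_contra hno
  push Not at hno
  have hlt : ∀ i, T.absK (aeval z (Φ i)) < 1 := fun i =>
    lt_of_le_of_ne (aeval_le_one _ hz) (hno i)
  obtain ⟨τ', hτ'0, hτ'1, hτ'⟩ : ∃ τ' : ℝ, 0 ≤ τ' ∧ τ' < 1 ∧ ∀ i, T.absK (aeval z (Φ i)) ≤ τ' := by
    by_cases hne : (Finset.univ : Finset σ).Nonempty
    · obtain ⟨j, -, hj⟩ := Finset.exists_max_image Finset.univ
        (fun i => T.absK (aeval z (Φ i))) hne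
      exact ⟨_, T.absK.nonneg _, hlt j, fun i => hj i (Finset.mem_univ i)⟩
    · exact ⟨0, le_rfl, one_pos, fun i => absurd ⟨i, Finset.mem_univ i⟩ hne⟩
  obtain ⟨N, x, hx, b, hb, c, hc, hX⟩ := h.nz i₀
  have h1 : T.absK (aeval z (X i₀ : MvPolynomial σ' (OK T K)) ^ N) = 1 := by
    rw [aeval_X, map_pow, hz0, one_pow]
  have h3 : aeval z (x + b + c) = aeval z x + aeval z b + aeval z c := by
    rw [map_add, map_add]
  rw [← map_pow, hX, h3] at h1
  have h2 : T.absK (aeval z x + aeval z b + aeval z c) < 1 := by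
    refine (T.ultraK _ _).trans_lt (max_lt ((T.ultraK _ _).trans_lt (max_lt ?_ ?_)) ?_)
    · exact (aeval_le_of_mem hx hz hτ hP).trans_lt hτ1
    · exact (aeval_le_of_mem hb hz hτ'0 hτ').trans_lt hτ'1
    · exact aeval_lt_of_red c hc hz
  exact h2.ne h1

theorem Step.contract {a : OK T K} {P : ι → MvPolynomial σ (OK T K)}
    {R : ι' → MvPolynomial σ' (OK T K)} {Φ : σ → MvPolynomial σ' (OK T K)}
    (h : Step T K a P R Φ) {z : σ' → C} (hz : ∀ i, T.absK (z i) ≤ 1) {η lam : ℝ} (hη : 0 ≤ η)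
    (hηl : η ≤ lam) (hal : av T K a ≤ lam) (hlam : lam < 1)
    (hP : ∀ l, T.absK (aeval z (R l)) ≤ η) (l : ι) :
    T.absK (aeval (fun i => aeval z (Φ i)) (P l)) ≤ lam * η := by
  have hlam0 : 0 ≤ lam := hη.trans hηl
  obtain ⟨Q, hQ, s, hs, hQs⟩ := h.con l
  rw [← aeval_aeval', hQs, map_add, map_pow, map_mul, aeval_C]
  refine (T.ultraK _ _).trans (max_le ?_ ?_)
  · rw [map_pow]
    have h4 := aeval_le_of_mem hQ hz hη hP
    calc T.absK (aeval z Q) ^ p ≤ T.absK (aeval z Q) ^ 2 :=
          pow_le_pow_of_le_one (T.absK.nonneg _) (h4.trans (hηl.trans hlam.le)) hp.out.two_le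
      _ ≤ η ^ 2 := pow_le_pow_left₀ (T.absK.nonneg _) h4 2
      _ = η * η := sq _
      _ ≤ lam * η := mul_le_mul_of_nonneg_right hηl hη
  · rw [map_mul]
    have h4 := aeval_le_of_mem hs hz hη hP
    calc T.absK (algebraMap (OK T K) C a) * T.absK (aeval z s) ≤ lam * η :=
          mul_le_mul hal h4 (T.absK.nonneg _) hlam0

end

section

variable {T : TiltPair p C F} {n r : ℕ → ℕ}

/-- The compositions of the transition maps. -/
noncomputable def comps (Φ : ∀ m, Fin (n m + 1) → MvPolynomial (Fin (n (m + 1) + 1)) (OK T K)) :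
    ∀ m, Fin (n 0 + 1) → MvPolynomial (Fin (n m + 1)) (OK T K)
  | 0 => X
  | m + 1 => fun i => aeval (Φ m) (comps Φ m i)

theorem comps_homogeneous
    {Φ : ∀ m, Fin (n m + 1) → MvPolynomial (Fin (n (m + 1) + 1)) (OK T K)} {e : ℕ → ℕ}
    (hΦ : ∀ m i, (Φ m i).IsHomogeneous (e m)) (m : ℕ) :
    ∀ i, (comps Φ m i).IsHomogeneous (∏ k ∈ Finset.range m, e k) := by
  induction m with
  | zero => exact fun i => isHomogeneous_X _ i
  | succ m ih =>
    intro i
    have h1 := (ih i).aeval (Φ m) (hΦ m)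
    rw [Finset.prod_range_succ, mul_comm]
    exact h1

theorem comps_contract {a : OK T K} {P : ∀ m, Fin (r m) → MvPolynomial (Fin (n m + 1)) (OK T K)}
    {Φ : ∀ m, Fin (n m + 1) → MvPolynomial (Fin (n (m + 1) + 1)) (OK T K)}
    (h : ∀ m, Step T K a (P m) (P (m + 1)) (Φ m)) {lam : ℝ} (hal : av T K a ≤ lam)
    (hlam : lam < 1) (m : ℕ) : ∀ (η : ℝ), 0 ≤ η → η ≤ lam → ∀ z : Fin (n m + 1) → C,
      (∀ i, T.absK (z i) ≤ 1) → (∃ i, T.absK (z i) = 1) →
      (∀ l, T.absK (aeval z (P m l)) ≤ η) → (∃ i, T.absK (aeval z (comps Φ m i)) = 1) ∧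
        ∀ l, T.absK (aeval (fun i => aeval z (comps Φ m i)) (P 0 l)) ≤ lam ^ m * η := by
  induction m with
  | zero =>
    intro η _ _ z _ hz0 hP
    simp only [comps, aeval_X, pow_zero, one_mul]
    exact ⟨hz0, hP⟩
  | succ m ih =>
    intro η hη hηl z hz ⟨i₀, hz0⟩ hP
    have hlam0 : 0 ≤ lam := hη.trans hηl
    have e1 : ∀ i, aeval z (comps Φ (m + 1) i) =
        aeval (fun j => aeval z (Φ m j)) (comps Φ m i) := fun i => aeval_aeval' _ _ _
    simp only [e1]
    have h2 := ih (lam * η) (mul_nonneg hlam0 hη)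
      ((mul_le_of_le_one_left hη hlam.le).trans hηl) (fun j => aeval z (Φ m j))
      (fun i => aeval_le_one _ hz) ((h m).norm hz hz0 hη (hηl.trans_lt hlam) hP)
      (fun l => (h m).contract hz hη hηl hal hlam hP l)
    refine ⟨h2.1, fun l => (h2.2 l).trans_eq ?_⟩
    ring

end

theorem hmap_of {T : TiltPair p C F} {σ ι : Type} (P : ι → MvPolynomial σ (OK T K)) :
    (Ideal.span (Set.range P)).map (red T K σ) =
      Ideal.span (Set.range fun l => red T K _ (P l)) := by
  rw [Ideal.map_span, ← Set.range_comp]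
  rfl

theorem red_eq_zero_of {T : TiltPair p C F} {σ : Type} {f : MvPolynomial σ (OK T K)}
    (h : ∀ α, T.absK (algebraMap (OK T K) C (MvPolynomial.coeff α f)) < 1) : red T K σ f = 0 := by
  ext α
  rw [coeff_map, MvPolynomial.coeff_zero]
  exact Ideal.Quotient.eq_zero_iff_mem.2 (h α)

theorem coeff_lt_of_red {T : TiltPair p C F} {σ : Type} {f : MvPolynomial σ (OK T K)}
    (h : red T K σ f = 0) (α : σ →₀ ℕ) :
    T.absK (algebraMap (OK T K) C (MvPolynomial.coeff α f)) < 1 := by
  have h1 : Ideal.Quotient.mk (mK T K) (MvPolynomial.coeff α f) = 0 := by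
    rw [← coeff_map, h, MvPolynomial.coeff_zero]
  exact Ideal.Quotient.eq_zero_iff_mem.1 h1

theorem hred_of {T : TiltPair p C F} {n r : ℕ} {P : Fin r → MvPolynomial (Fin (n + 1)) (OK T K)}
    (hP : IsModel T P) (g : MvPolynomial (Fin (n + 1)) (kk T K))
    (hg : g ^ p ∈ (Ideal.span (Set.range P)).map (red T K (Fin (n + 1)))) :
    g ∈ (Ideal.span (Set.range P)).map (red T K (Fin (n + 1))) := by
  obtain ⟨g, rfl⟩ := red_surjective (T := T) (K := K) g
  rw [← map_pow] at hg
  obtain ⟨q, hq, hqg⟩ := (Ideal.mem_map_iff_of_surjective _ red_surjective).1 hg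
  obtain ⟨q', hq', h2⟩ := hP.reduced g p ⟨q, hq, fun α => coeff_lt_of_red (by
    rw [map_sub, hqg, sub_self]) α⟩
  have h3 := red_eq_zero_of h2
  rw [map_sub, sub_eq_zero] at h3
  rw [h3]
  exact Ideal.mem_map_of_mem _ hq'

attribute [local instance] MvPolynomial.gradedAlgebra in
/-- The homogeneous components of the elements of an ideal generated by forms are in the ideal. -/
theorem hhom_of {R σ ι : Type} [CommRing R] {P : ι → MvPolynomial σ R}
    (hP : ∀ l, ∃ D, (P l).IsHomogeneous D) (f : MvPolynomial σ R)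
    (hf : f ∈ Ideal.span (Set.range P)) (k : ℕ) :
    homogeneousComponent k f ∈ Ideal.span (Set.range P) := by
  have h1 : (Ideal.span (Set.range P)).IsHomogeneous (homogeneousSubmodule σ R) := by
    apply Ideal.homogeneous_span
    rintro _ ⟨l, rfl⟩
    obtain ⟨D, hD⟩ := hP l
    exact ⟨D, hD⟩
  exact (mem_iff_homogeneousComponent_mem h1 f).1 hf k

theorem mk_aeval_congr {R σ σ' : Type} [CommRing R] {I : Ideal (MvPolynomial σ' R)}
    {Φ Φ' : σ → MvPolynomial σ' R} (h : ∀ i, Φ i - Φ' i ∈ I) (f : MvPolynomial σ R) :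
    aeval Φ f - aeval Φ' f ∈ I := by
  induction f using MvPolynomial.induction_on with
  | C c =>
    rw [aeval_C, aeval_C, sub_self]
    exact I.zero_mem
  | add f g hf hg =>
    rw [map_add, map_add]
    have h1 : aeval Φ f + aeval Φ g - (aeval Φ' f + aeval Φ' g) =
        (aeval Φ f - aeval Φ' f) + (aeval Φ g - aeval Φ' g) := by ring
    rw [h1]
    exact I.add_mem hf hg
  | mul_X f i hf =>
    rw [map_mul, map_mul, aeval_X, aeval_X]
    have h1 : aeval Φ f * Φ i - aeval Φ' f * Φ' i =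
        (aeval Φ f - aeval Φ' f) * Φ i + aeval Φ' f * (Φ i - Φ' i) := by ring
    rw [h1]
    exact I.add_mem (I.mul_mem_right _ hf) (I.mul_mem_left _ (h i))

/-- A transition map of flat models can be given by forms which are contracting. -/
theorem step_of {T : Tilting p C F} [IsAlgClosed F] (B : BaseField T K E) {a : OK T.toTiltPair K}
    (ha : a ∈ mK T.toTiltPair K) (hap : T.absK p ≤ av T.toTiltPair K a) {n r m s e : ℕ} {β : ℝ}
    (haβ : β ≤ av T.toTiltPair K a)
    {P : Fin r → MvPolynomial (Fin (n + 1)) (OK T.toTiltPair K)}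
    {R : Fin s → MvPolynomial (Fin (m + 1)) (OK T.toTiltPair K)}
    {Φ : Fin (n + 1) → MvPolynomial (Fin (m + 1)) (OK T.toTiltPair K)}
    (hR : IsModel T.toTiltPair R) (hΦ : IsInseparableMap T.toTiltPair P R Φ e β) :
    ∃ Φ' : Fin (n + 1) → MvPolynomial (Fin (m + 1)) (OK T.toTiltPair K),
      (∀ i, (Φ' i).IsHomogeneous e) ∧ Step T.toTiltPair K a P R Φ' := by
  classical
  have hpp : 0 < T.absK p := T.absK.pos T.p_ne
  have ha0 : a ≠ 0 := by
    rintro rfl
    rw [av_zero] at hap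
    exact absurd hpp (not_lt.2 hap)
  obtain ⟨a', ha'⟩ := dvd_of_av_le (x := ((p : ℕ) : OK T.toTiltPair K)) (y := a)
    (by rw [av_p]; exact hap) ha0
  have hhomR : ∀ f ∈ Ideal.span (Set.range R), ∀ k,
      homogeneousComponent k f ∈ Ideal.span (Set.range R) :=
    fun f hf k => hhom_of (fun l => by
      obtain ⟨D, -, hD⟩ := hR.form l
      exact ⟨D, hD⟩) f hf k
  choose g q hq hg using hΦ.insep
  let Φ' : Fin (n + 1) → MvPolynomial (Fin (m + 1)) (OK T.toTiltPair K) := fun i =>
    Φ i - homogeneousComponent e (q i)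
  have hΦ'1 : ∀ i, Φ i - Φ' i ∈ Ideal.span (Set.range R) := fun i => by
    have h1 : Φ i - Φ' i = homogeneousComponent e (q i) := by
      change Φ i - (Φ i - homogeneousComponent e (q i)) = _
      ring
    rw [h1]
    exact hhomR _ (hq i) e
  have hΦ'2 : ∀ i, Φ' i = homogeneousComponent e (Φ i - q i) := fun i => by
    rw [map_sub, homogeneousComponent_eq_self (hΦ.hom i)]
  refine ⟨Φ', fun i => ?_, fun l => ?_, fun i => ?_⟩
  · rw [hΦ'2]
    exact homogeneousComponent_isHomogeneous _ _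
  · refine contraction_unif ha (by rw [av_p]; exact hap) (fun c => ?_) (Ideal.span (Set.range R))
      hhomR hR.flat (hred_of hR) ?_
      (dvd_pderiv_comp (fun i j => ?_) _)
    · obtain ⟨d, hd⟩ := exists_root_mod T B c
      exact ⟨d, hd.trans hap⟩
    · have h1 := mk_aeval_congr hΦ'1 (P l)
      have h2 : aeval Φ' (P l) = aeval Φ (P l) - (aeval Φ (P l) - aeval Φ' (P l)) := by ring
      rw [h2]
      exact Ideal.sub_mem _ (hΦ.maps l) h1
    · obtain ⟨h, hh⟩ := dvd_of_coeff ha0 (Φ i - g i ^ p - q i) fun α => (hg i α).trans haβ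
      have h1 : Φ i - q i = g i ^ p + MvPolynomial.C a * h := by rw [← hh]; ring
      have h2 : homogeneousComponent e (MvPolynomial.C a * h) =
          MvPolynomial.C a * homogeneousComponent e h := homogeneousComponent_C_mul _ _ _
      rw [hΦ'2, h1, map_add, map_add, h2]
      refine dvd_add ?_ ?_
      · refine dvd_of_coeff ha0 _ fun α => ?_
        rw [coeff_pderiv, coeff_homogeneousComponent]
        split_ifs
        · have h3 := coeff_pderiv (i := j) (m := α) (g i ^ p)
          rw [← h3]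
          have h4 : pderiv j (g i ^ p) = MvPolynomial.C a * (MvPolynomial.C a' * g i ^ (p - 1) *
              pderiv j (g i)) := by
            rw [Derivation.leibniz_pow, smul_eq_mul, nsmul_eq_mul]
            have h5 : ((p : ℕ) : MvPolynomial (Fin (m + 1)) (OK T.toTiltPair K)) =
                MvPolynomial.C a * MvPolynomial.C a' := by
              rw [← map_mul, ← ha', map_natCast]
            rw [h5]
            ring
          rw [h4, coeff_C_mul, av_mul]
          exact mul_le_of_le_one_right (av_nonneg _) (av_le_one _)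
        · rw [zero_mul, av_zero]
          exact av_nonneg _
      · rw [pderiv_C_mul, C_mul']
        rw [← C_mul']
        exact dvd_mul_right _ _
  · obtain ⟨N, q', hq', hN⟩ := hΦ.defined i
    rw [Ideal.span_union] at hq'
    have h2 : Ideal.span (Set.range R) ⊔ Ideal.span (Set.range Φ) ≤
        Ideal.span (Set.range R) ⊔ Ideal.span (Set.range Φ') := by
      refine sup_le le_sup_left (Ideal.span_le.2 ?_)
      rintro _ ⟨j, rfl⟩
      have h3 : Φ j = (Φ j - Φ' j) + Φ' j := by ring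
      rw [SetLike.mem_coe, h3]
      exact Ideal.add_mem _ (Ideal.mem_sup_left (hΦ'1 j))
        (Ideal.mem_sup_right (Ideal.subset_span ⟨j, rfl⟩))
    obtain ⟨x, hx, b, hb, hab⟩ := Submodule.mem_sup.1 (h2 hq')
    refine ⟨N, x, hx, b, hb, X i ^ N - q', red_eq_zero_of hN, ?_⟩
    rw [← hab]
    ring

/-- Approximations within a radius of all members of the tower give arbitrarily good approximations
of its bottom. -/
theorem within_of_tower [IsAlgClosed C] [IsAlgClosed F] (T : Tilting p C F) (B : BaseField T K E)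
    {n r e : ℕ → ℕ} {d : ℕ} {β ρ : ℝ} (hβ : β < 1) (hρ : ρ < 1)
    {P : ∀ m, Fin (r m) → MvPolynomial (Fin (n m + 1)) (OK T.toTiltPair K)}
    {Φ : ∀ m, Fin (n m + 1) → MvPolynomial (Fin (n (m + 1) + 1)) (OK T.toTiltPair K)}
    (hP : ∀ m, IsModel T.toTiltPair (P m))
    (hΦ : ∀ m, IsInseparableMap T.toTiltPair (P m) (P (m + 1)) (Φ m) (e m) β)
    (hw : ∀ m, Within T.toTiltPair E (P m) ρ d) {ε : ℝ} (hε : 0 < ε) :
    Within T.toTiltPair E (P 0) ε d := by
  classical
  obtain ⟨a, ha, hap, haβ⟩ := exists_near_one T B hβ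
  choose Φ' hΦ' hstep using fun m => step_of B ha hap haβ (hP (m + 1)) (hΦ m)
  set ρ' : ℝ := max ρ 0 with hρ'
  have hρ'0 : 0 ≤ ρ' := le_max_right _ _
  set lam : ℝ := max ρ' (av T.toTiltPair K a) with hlam
  have hlam1 : lam < 1 := max_lt (max_lt hρ one_pos) ha
  have hlam0 : 0 ≤ lam := hρ'0.trans (le_max_left _ _)
  obtain ⟨m, hm⟩ := exists_pow_lt_of_lt_one hε hlam1
  have hmε : lam ^ m * ρ' ≤ ε :=
    (mul_le_of_le_one_right (pow_nonneg hlam0 m) ((le_max_left _ _).trans hlam1.le)).trans hm.le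
  choose D hD0 hD using fun l => (hP 0).form l
  refine within_of_map T B hD0 hD (f := comps Φ' m) (R := P m) (ρ := ρ)
    (Finset.prod_pos fun k _ => (hΦ k).pos) (comps_homogeneous hΦ' m) hε
    (fun z hz hz0 hPz => ?_) (hw m)
  have h1 := comps_contract hstep (lam := lam) (le_max_right _ _) hlam1 m ρ' hρ'0
    (le_max_left _ _) z hz hz0 (fun l => (hPz l).trans (le_max_left _ _))
  exact ⟨h1.1, fun l => (h1.2 l).trans hmε⟩

/-- Q1 from arbitrarily good approximations. -/
theorem approximable_of_within [IsAlgClosed C] [IsAlgClosed F] (T : Tilting p C F)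
    (B : BaseField T K E) {n r d : ℕ}
    {P : Fin r → MvPolynomial (Fin (n + 1)) (OK T.toTiltPair K)}
    (hP : ∀ l, ∃ D, 0 < D ∧ (P l).IsHomogeneous D)
    (hw : ∀ ε : ℝ, 0 < ε → Within T.toTiltPair E P ε d)
    (hle : DimLEOver K {x : Fin (n + 1) → C | ∀ l, aeval x (P l) = 0} d) :
    IsConeOver K {x : Fin (n + 1) → C | ∀ l, aeval x (P l) = 0} ∧
      Approximable T.toTiltPair K E {x : Fin (n + 1) → C | ∀ l, aeval x (P l) = 0} d := by
  classical
  obtain ⟨D, hD⟩ : ∃ D : Fin r → ℕ, ∀ l, 0 < D l ∧ (P l).IsHomogeneous (D l) :=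
    ⟨fun l => (hP l).choose, fun l => (hP l).choose_spec⟩
  let g : Fin r → MvPolynomial (Fin (n + 1)) K := fun l => toK T.toTiltPair K (P l)
  have hsmall : Small T.toTiltPair E g d := by
    intro ε hε
    obtain ⟨s, G, hG, hdim, hG2⟩ := hw ε hε
    refine ⟨Fin s, inferInstance, G, hG, hdim, fun t ht ht1 l => ?_⟩
    change T.absK (aeval (fun i => T.sharp (t i)) (toK T.toTiltPair K (P l))) ≤ ε
    rw [aeval_toK]
    exact hG2 t ht1 ht l
  have hg : ∀ l, IsForm (g l) := fun l => ⟨D l, (hD l).1, (hD l).2.map _⟩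
  let h : Fin 0 → MvPolynomial (Fin (n + 1)) K := Fin.elim0
  let f : Fin (n + 1) → MvPolynomial (Fin (n + 1)) K := X
  have himg : imageOver C (Sum.elim h g) f =
      {x : Fin (n + 1) → C | ∀ l, aeval x (P l) = 0} := by
    ext x
    constructor
    · rintro ⟨z, hz, hx⟩
      have hxz : x = z := by
        funext i
        rw [hx i]
        exact aeval_X _ _
      intro l
      rw [hxz, ← aeval_toK]
      exact hz (Sum.inr l)
    · intro hx
      refine ⟨x, ?_, fun i => (aeval_X _ _).symm⟩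
      rintro (k | l)
      · exact k.elim0
      · change aeval x (toK T.toTiltPair K (P l)) = 0
        rw [aeval_toK]
        exact hx l
  have hno : NoCommonZero C (Sum.elim h g) f := by
    intro z _ hz
    funext i
    have h1 := hz i
    change aeval z (X i) = 0 at h1
    rw [aeval_X] at h1
    exact h1
  have hform : ∀ k, IsForm (Sum.elim h g k) := by
    rintro (k | l)
    · exact k.elim0
    · exact hg l
  have hf1 : ∀ i, (f i).IsHomogeneous 1 := fun i => isHomogeneous_X _ _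
  have hcone : IsConeOver K (imageOver C (Sum.elim h g) f) :=
    imageOver_cone hform hf1 one_pos hno
  refine ⟨himg ▸ hcone, ?_⟩
  have hU : (⋃ _ : Fin 1, imageOver C (Sum.elim h g) f) = imageOver C (Sum.elim h g) f :=
    Set.iUnion_const _
  have hmain := approximable_union T B (ι := Fin (n + 1)) (N := 1) one_pos (d := d)
    (c := fun _ => 0) (m := fun _ => n) (e := fun _ => 1) (r0 := fun _ => r)
    (fun _ => h) (fun _ k => k.elim0) (fun _ => g) (fun _ => hg) (fun _ => hsmall)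
    (fun _ => f) (fun _ => one_pos) (fun _ => hf1) (fun _ => hno)
    (by rw [hU, himg]; exact hle)
  rw [hU, himg] at hmain
  exact hmain

end Pool.Agent.Helper45M.DB
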