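import Pool.Agent.Helper45M.DB.Gen
set_option autoImplicit false

/-!
# Approximations within a radius and maps which contract tubes
-/

open MvPolynomial WittVector Pool.Agent.Y129.TA Pool.Agent.Y129.TB Pool.Agent.R388.TP

set_option linter.unusedSectionVars false

namespace Pool.Agent.Helper45M.DB

variable {p : ℕ} [hp : Fact p.Prime] {C F K E : Type} [Field C] [Field F] [CharP F p] [Field K]
  [Field E] [Algebra K C] [Algebra E F] {n m r r' : ℕ}

/-- Approximations within a radius and maps which contract tubes. -/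
theorem within_of_map [IsAlgClosed C] [IsAlgClosed F] (T : Tilting p C F)
    (B : BaseField T K E) {P : Fin r → MvPolynomial (Fin (n + 1)) (OK T.toTiltPair K)}
    {D : Fin r → ℕ} (hD : ∀ l, 0 < D l) (hP : ∀ l, (P l).IsHomogeneous (D l))
    {R : Fin r' → MvPolynomial (Fin (m + 1)) (OK T.toTiltPair K)}
    {f : Fin (n + 1) → MvPolynomial (Fin (m + 1)) (OK T.toTiltPair K)}
    {e : ℕ} (hem : 0 < e) (hf : ∀ i, (f i).IsHomogeneous e) {ρ ε : ℝ} (hε : 0 < ε)
    (hmap : ∀ z : Fin (m + 1) → C, (∀ i, T.absK (z i) ≤ 1) → (∃ i, T.absK (z i) = 1) →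
      (∀ l, T.absK (aeval z (R l)) ≤ ρ) → (∃ i, T.absK (aeval z (f i)) = 1) ∧
        ∀ l, T.absK (aeval (fun i => aeval z (f i)) (P l)) ≤ ε) {d : ℕ}
    (h : Within T.toTiltPair E R ρ d) : Within T.toTiltPair E P ε d := by
  classical
  let σ : Type := Fin (n + 1)
  let σ' : Type := Fin (m + 1)
  let _ : Fintype σ := inferInstanceAs (Fintype (Fin (n + 1)))
  let _ : Fintype σ' := inferInstanceAs (Fintype (Fin (m + 1)))
  obtain ⟨s', P₀, hP₀, hdim, hnear⟩ := h
  -- the forms over `K`
  let hs : σ → MvPolynomial (σ' ⊕ σ) K := fun i =>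
    X (Sum.inr i) ^ e - rename Sum.inl (toK T.toTiltPair K (f i))
  have hhs : ∀ i, (hs i).IsHomogeneous e := fun i =>
    (isHomogeneous_X_pow _ _).sub ((hf i).map _).rename_isHomogeneous
  have hhs_eval : ∀ i (w : σ' ⊕ σ → C), aeval w (hs i) =
      w (Sum.inr i) ^ e - aeval (fun j => w (Sum.inl j)) (f i) := by
    intro i w
    change aeval w (X (Sum.inr i) ^ e - rename Sum.inl (toK T.toTiltPair K (f i))) = _
    rw [map_sub, map_pow, aeval_X, aeval_rename]
    congr 1
    exact aeval_toK _ _ _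
  set δ : ℝ := min (1 / 2) ε with hδdef
  have hδ0 : 0 < δ := lt_min (by norm_num) hε
  have hδ1 : δ < 1 := (min_le_left _ _).trans_lt (by norm_num)
  choose DG hDG G hG hGa using fun i => approx T B hem (hhs i) hδ0
  let u : σ → MvPolynomial (σ' ⊕ σ) E := fun i => X (Sum.inr i) ^ e
  have hu : ∀ i, (u i).IsHomogeneous e := fun i => isHomogeneous_X_pow _ _
  have hue : ∀ (w : σ' ⊕ σ → F) i, aeval w (u i) = w (Sum.inr i) ^ e := fun w i => by
    change aeval w (X (Sum.inr i) ^ e) = _
    rw [map_pow, aeval_X]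
  have hGf : ∀ k, IsForm (G k) := fun k => ⟨DG k, hDG k, hG k⟩
  let E0 : σ ⊕ Fin s' → MvPolynomial (σ' ⊕ σ) E := Sum.elim G fun l => rename Sum.inl (P₀ l)
  have hE0f : ∀ k, IsForm (E0 k) := by
    rintro (k | l)
    · exact hGf k
    · obtain ⟨D, hD, h1⟩ := hP₀ l
      exact ⟨D, hD, h1.rename_isHomogeneous⟩
  have : Infinite F := IsAlgClosed.instInfinite
  -- the main estimate
  have key : ∀ w : σ' ⊕ σ → F, (∀ k, aeval w (E0 k) = 0) → w ≠ 0 → ∃ a : F, a ≠ 0 ∧
      (∀ i, T.absF (a ^ e * w (Sum.inr i) ^ e) ≤ 1) ∧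
      (∃ i, T.absF (a ^ e * w (Sum.inr i) ^ e) = 1) ∧
      ∀ l, T.absK (aeval (fun i => T.sharp (a ^ e * w (Sum.inr i) ^ e)) (P l)) ≤ ε := by
    intro w hw hw0
    obtain ⟨a, ha, h1, t, ht⟩ := exists_normal T.toTiltPair hw0
    -- the approximating equations
    have hGw : ∀ i, T.absK (T.sharp (a * w (Sum.inr i)) ^ e -
        aeval (fun j => T.sharp (a * w (Sum.inl j))) (f i)) ≤ δ := by
      intro i
      have h2 := hGa i (fun t => a * w t) h1 (by
        have h3 : aeval w (G i) = 0 := hw (Sum.inl i)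
        rw [aeval_smul (hG i), h3, mul_zero])
      rw [hhs_eval] at h2
      exact h2
    have hzP : ∀ l, aeval (fun j => a * w (Sum.inl j)) (P₀ l) = 0 := by
      intro l
      have h3 : aeval w (rename Sum.inl (P₀ l)) = 0 := hw (Sum.inr l)
      rw [aeval_rename] at h3
      have h4 : aeval (fun j => w (Sum.inl j)) (P₀ l) = 0 := h3
      obtain ⟨D', hD', h5⟩ := hP₀ l
      rw [aeval_smul h5 a (fun j => w (Sum.inl j)), h4, mul_zero]
    set s : σ' → C := fun j => T.sharp (a * w (Sum.inl j)) with hs_def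
    have hs1 : ∀ j, T.absK (s j) ≤ 1 := fun j => by
      rw [hs_def]
      change T.absK (T.sharp _) ≤ 1
      rw [T.abs_sharp]
      exact h1 _
    have hsP : ∀ l, T.absK (aeval s (R l)) ≤ ρ := fun l =>
      hnear (fun j => a * w (Sum.inl j)) (fun j => h1 _) hzP l
    have hyle : ∀ i, T.absK (T.sharp (a * w (Sum.inr i)) ^ e) ≤ 1 := fun i => by
      rw [map_pow, T.abs_sharp]
      exact pow_le_one₀ (T.absF.nonneg _) (h1 _)
    -- one of the coordinates `z` has absolute value one
    have hs2 : ∃ j, T.absK (s j) = 1 := by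
      by_contra hno
      push Not at hno
      have hlt : ∀ j, T.absK (s j) < 1 := fun j => lt_of_le_of_ne (hs1 j) (hno j)
      have h5 : ∀ i, T.absK (aeval s (f i)) < 1 := by
        intro i
        by_cases hne : Nonempty σ'
        · obtain ⟨j₀, hj₀⟩ := Finite.exists_max fun j => T.absK (s j)
          exact (aeval_le_pow T.toTiltPair (hf i) (T.absK.nonneg (s j₀)) hj₀).trans_lt
            (pow_lt_one₀ (T.absK.nonneg _) (hlt j₀) hem.ne')
        · have h6 : ∀ j, T.absK (s j) ≤ 0 := fun j => (hne ⟨j⟩).elim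
          refine (aeval_le_pow T.toTiltPair (hf i) le_rfl h6).trans_lt ?_
          rw [zero_pow hem.ne']
          exact one_pos
      rcases t with j | i
      · have h6 := hlt j
        rw [hs_def] at h6
        change T.absK (T.sharp _) < 1 at h6
        rw [T.abs_sharp, ht] at h6
        exact lt_irrefl _ h6
      · have h6 : T.sharp (a * w (Sum.inr i)) ^ e =
            (T.sharp (a * w (Sum.inr i)) ^ e - aeval s (f i)) + aeval s (f i) := by ring
        have h7 : T.absK (T.sharp (a * w (Sum.inr i)) ^ e) < 1 := by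
          rw [h6]
          exact (T.ultraK _ _).trans_lt (max_lt ((hGw i).trans_lt hδ1) (h5 i))
        rw [map_pow, T.abs_sharp, ht, one_pow] at h7
        exact lt_irrefl _ h7
    obtain ⟨⟨i₀, h6⟩, h7⟩ := hmap s hs1 hs2 hsP
    have h5 : ∀ i, T.absK (aeval s (f i)) ≤ 1 := fun i => aeval_le_one _ hs1
    have hval : ∀ i, T.sharp (a ^ e * w (Sum.inr i) ^ e) =
        T.sharp (a * w (Sum.inr i)) ^ e := fun i => by
      rw [← mul_pow, map_pow]
    refine ⟨a, ha, fun i => ?_, ⟨i₀, ?_⟩, fun l => ?_⟩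
    · rw [← T.abs_sharp, hval]
      exact hyle i
    · rw [← T.abs_sharp, hval]
      refine le_antisymm (hyle i₀) ?_
      by_contra hlt
      push Not at hlt
      have h8 : aeval s (f i₀) = T.sharp (a * w (Sum.inr i₀)) ^ e +
          -(T.sharp (a * w (Sum.inr i₀)) ^ e - aeval s (f i₀)) := by ring
      have h9 : T.absK (aeval s (f i₀)) < 1 := by
        rw [h8]
        refine (T.ultraK _ _).trans_lt (max_lt hlt ?_)
        rw [AbsoluteValue.map_neg]
        exact (hGw i₀).trans_lt hδ1
      exact h9.ne h6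
    · simp only [hval]
      have h8 := aeval_sub_le T.toTiltPair (P l) hyle h5 hδ0.le hGw
      have h9 : aeval (fun i => T.sharp (a * w (Sum.inr i)) ^ e) (P l) =
          (aeval (fun i => T.sharp (a * w (Sum.inr i)) ^ e) (P l) -
            aeval (fun i => aeval s (f i)) (P l)) +
            aeval (fun i => aeval s (f i)) (P l) := by ring
      rw [h9]
      exact (T.ultraK _ _).trans (max_le (h8.trans (min_le_right _ _)) (h7 l))
  have hG0 : ∀ w : σ' ⊕ σ → F, (∀ k, aeval w (E0 k) = 0) → (∀ i, aeval w (u i) = 0) → w = 0 := by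
    intro w hw hy
    by_contra hw0
    obtain ⟨a, _, _, ⟨i, hi⟩, _⟩ := key w hw hw0
    have h1 := hy i
    rw [hue] at h1
    rw [h1, mul_zero, map_zero] at hi
    exact zero_ne_one hi
  have hYcone : IsConeOver E (imageOver F E0 u) := imageOver_cone hE0f hu hem hG0
  have hYdim : DimGE (imageOver F E0 u) d :=
    dimGE_image hGf hP₀ hem hdim hG0 (by omega)
  obtain ⟨r, g, hg, hYg⟩ := exists_gens hYcone (dimGE_nonempty hYdim)
  refine ⟨r, g, hg, ?_, ?_⟩
  · rw [← hYg]
    exact hYdim
  · intro t ht1 ht l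
    have h1 : t ∈ imageOver F E0 u := by
      rw [hYg]
      exact ht
    obtain ⟨w, hw, hy⟩ := h1
    by_cases hw0 : w = 0
    · have ht0 : (fun i => T.sharp (t i)) = fun i => (0 : C) * (0 : C) := by
        funext i
        rw [hy i, hue, hw0, mul_zero]
        change T.sharp ((0 : F) ^ e) = 0
        rw [zero_pow hem.ne']
        exact T.toTiltPair.sharp_zero
      rw [ht0, aeval_smul' (hP l) (0 : C) fun _ => (0 : C), zero_pow (hD l).ne', zero_mul, map_zero]
      exact hε.le
    · obtain ⟨a, ha, h2, ⟨i₀, h3⟩, h4⟩ := key w hw hw0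
      have hti : ∀ i, a ^ e * w (Sum.inr i) ^ e = a ^ e * t i := fun i => by
        rw [hy i, hue]
      have h5 : 1 ≤ T.absF (a ^ e) := by
        rw [hti, map_mul] at h3
        by_contra hlt
        push Not at hlt
        have h6 : T.absF (a ^ e) * T.absF (t i₀) < 1 :=
          mul_lt_one_of_nonneg_of_lt_one_left (T.absF.nonneg _) hlt (ht1 i₀)
        exact h6.ne h3
      have h6 := h4 l
      have h7 : (fun i => T.sharp (a ^ e * w (Sum.inr i) ^ e)) =
          fun i => T.sharp (a ^ e) * T.sharp (t i) := by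
        funext i
        rw [hti, map_mul]
      rw [h7, aeval_smul' (hP l), map_mul, map_pow, T.abs_sharp] at h6
      refine le_trans ?_ h6
      exact le_mul_of_one_le_left (T.absK.nonneg _) (one_le_pow₀ h5)

end Pool.Agent.Helper45M.DB
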